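import Pool.Agent.W74_5f6b2a_tape.Defs
import Pool.Agent.W_MP_5f6b2a_lc.ACTools
import Pool.Agent.W_MP_5f6b2a_lc.DT

/-!
Closure properties of `Form 𝓛 s d`.
-/

namespace Pool.Agent.W74_5f6b2a_tape

open Pool.Agent.W_MP_5f6b2a_lc

namespace Form

variable {X : Type} {𝓛 𝓛' : ((X → Bool) → Prop) → Prop} {s s' d d' : ℕ}
  {f g : (X → Bool) → Prop}

theorem congr (h : Form 𝓛 s d f) (hfg : ∀ z, f z ↔ g z) : Form 𝓛 s d g := by
  have : f = g := funext fun z => propext (hfg z)
  exact this ▸ h

theorem mono_leaf (hL : ∀ f, 𝓛 f → 𝓛' f) (h : Form 𝓛 s d f) : Form 𝓛' s d f := by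
  induction h with
  | leaf f hf => exact Form.leaf f (hL f hf)
  | all m hm g _ ih => exact Form.all m hm g ih
  | ex m hm g _ ih => exact Form.ex m hm g ih

theorem mono_size (hs : s ≤ s') (h : Form 𝓛 s d f) : Form 𝓛 s' d f := by
  induction h with
  | leaf f hf => exact Form.leaf f hf
  | all m hm g _ ih => exact Form.all m (hm.trans hs) g ih
  | ex m hm g _ ih => exact Form.ex m (hm.trans hs) g ih

theorem succ (hs : 1 ≤ s) (h : Form 𝓛 s d f) : Form 𝓛 s (d + 1) f :=
  (Form.all 1 hs (fun _ => f) (fun _ => h)).congr fun z => by simp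

theorem mono_depth (hs : 1 ≤ s) (hd : d ≤ d') (h : Form 𝓛 s d f) : Form 𝓛 s d' f := by
  induction hd with
  | refl => exact h
  | step _ ih => exact succ hs ih

theorem mono (hs1 : 1 ≤ s') (hs : s ≤ s') (hd : d ≤ d') (h : Form 𝓛 s d f) : Form 𝓛 s' d' f :=
  mono_depth hs1 hd (mono_size hs h)

theorem not (hL : ∀ f, 𝓛 f → 𝓛 fun z => ¬ f z) (h : Form 𝓛 s d f) :
    Form 𝓛 s d fun z => ¬ f z := by
  induction h with
  | leaf f hf => exact Form.leaf _ (hL f hf)
  | all m hm g _ ih => exact (Form.ex m hm _ ih).congr fun z => by simp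
  | ex m hm g _ ih => exact (Form.all m hm _ ih).congr fun z => by simp

theorem and (hs : 2 ≤ s) (hf : Form 𝓛 s d f) (hg : Form 𝓛 s d g) :
    Form 𝓛 s (d + 1) fun z => f z ∧ g z := by
  refine (Form.all 2 hs (fun i => if i = 0 then f else g) ?_).congr fun z => ?_
  · intro i
    split_ifs
    · exact hf
    · exact hg
  · constructor
    · intro h
      exact ⟨by simpa using h 0, by simpa using h 1⟩
    · rintro ⟨h1, h2⟩ i
      split_ifs
      · exact h1
      · exact h2

/-- A formula over formulas. -/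
theorem comp {Y : Type} {φ : (X → Bool) → Y → Bool} {f : (Y → Bool) → Prop}
    (hL : ∀ f, 𝓛 f → 𝓛 fun z => ¬ f z) (hφ : ∀ y, Form 𝓛 s' d' fun z => φ z y = true)
    (h : AC s d f) : Form 𝓛 (max s s') (d' + d) fun z => f (φ z) := by
  induction h with
  | lit y b =>
    cases b
    · exact (((hφ y).not hL).mono_size (le_max_right _ _)).congr fun z => by simp
    · exact ((hφ y).mono_size (le_max_right _ _)).congr fun z => by simp
  | all m hm g _ ih => exact Form.all m (hm.trans (le_max_left _ _)) (fun i z => g i (φ z)) ih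
  | ex m hm g _ ih => exact Form.ex m (hm.trans (le_max_left _ _)) (fun i z => g i (φ z)) ih

/-- Plain formulas. -/
theorem of_AC (hL : ∀ (x : X) (b : Bool), 𝓛 fun z => z x = b) (h : AC s d f) :
    Form 𝓛 s d f := by
  induction h with
  | lit y b => exact Form.leaf _ (hL y b)
  | all m hm g _ ih => exact Form.all m hm g ih
  | ex m hm g _ ih => exact Form.ex m hm g ih

/-- A formula has few leaves. -/
theorem leaves (h : Form 𝓛 s d f) : ∃ F : Fin ((max s 1) ^ d) → (X → Bool) → Prop,
    (∀ i, 𝓛 (F i) ∨ ∀ g, 𝓛 g → False) ∧ Form (fun g => 𝓛 g ∧ ∃ i, g = F i) s d f := by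
  classical
  by_cases hne : ∃ g, 𝓛 g
  · obtain ⟨g0, hg0⟩ := hne
    suffices H : ∃ F : Fin ((max s 1) ^ d) → (X → Bool) → Prop,
        (∀ i, 𝓛 (F i)) ∧ Form (fun g => 𝓛 g ∧ ∃ i, g = F i) s d f by
      obtain ⟨F, h1, h2⟩ := H
      exact ⟨F, fun i => Or.inl (h1 i), h2⟩
    have key : ∀ {d : ℕ} (m : ℕ) (_ : m ≤ s) (g : Fin m → (X → Bool) → Prop)
        (_ : ∀ i, ∃ F : Fin ((max s 1) ^ d) → (X → Bool) → Prop,
          (∀ j, 𝓛 (F j)) ∧ Form (fun g => 𝓛 g ∧ ∃ j, g = F j) s d (g i)),
        ∃ F : Fin ((max s 1) ^ (d + 1)) → (X → Bool) → Prop,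
          (∀ j, 𝓛 (F j)) ∧ ∀ i, Form (fun g => 𝓛 g ∧ ∃ j, g = F j) s d (g i) := by
      intro d m hm g ih
      choose F hF1 hF2 using ih
      let e : Fin ((max s 1) ^ (d + 1)) ≃ Fin ((max s 1) ^ d) × Fin (max s 1) :=
        (finCongr (pow_succ _ _)).trans finProdFinEquiv.symm
      refine ⟨fun j => if hj : ((e j).2 : ℕ) < m then F ⟨(e j).2, hj⟩ (e j).1 else g0, ?_, ?_⟩
      · intro j
        dsimp only
        split_ifs
        · exact hF1 _ _
        · exact hg0
      · intro i
        refine (hF2 i).mono_leaf ?_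
        rintro g' ⟨hg', j, rfl⟩
        refine ⟨hg', e.symm (j, ⟨i, i.2.trans_le (hm.trans (le_max_left _ _))⟩), ?_⟩
        simp
    induction h with
    | leaf f hf => exact ⟨fun _ => f, fun _ => hf, Form.leaf f ⟨hf, 0, rfl⟩⟩
    | all m hm g _ ih =>
      obtain ⟨F, h1, h2⟩ := key m hm g ih
      exact ⟨F, h1, Form.all m hm g h2⟩
    | ex m hm g _ ih =>
      obtain ⟨F, h1, h2⟩ := key m hm g ih
      exact ⟨F, h1, Form.ex m hm g h2⟩
  · exact ⟨fun _ => f, fun _ => Or.inr fun g hg => hne ⟨g, hg⟩,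
      h.mono_leaf fun g hg => (hne ⟨g, hg⟩).elim⟩

/-- Substitution. -/
theorem subst {Y : Type} {φ : (Y → Bool) → X → Bool}
    (hφ : ∀ g, 𝓛 g → AC s' d' fun z => g (φ z)) (h : Form 𝓛 s d f) :
    AC (max s s') (d' + d) fun z => f (φ z) := by
  induction h with
  | leaf f hf => exact (hφ f hf).mono_size (le_max_right _ _)
  | all m hm g _ ih => exact AC.all m (hm.trans (le_max_left _ _)) (fun i z => g i (φ z)) ih
  | ex m hm g _ ih => exact AC.ex m (hm.trans (le_max_left _ _)) (fun i z => g i (φ z)) ih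

end Form

theorem Leaf.not {n r M : ℕ} {Γ : Type} {ℓ T : ℕ} {lay : ℕ → ℕ} {A : Fin r → Machine Γ M}
    {f : (Fin n → Bool) → Prop} (h : Leaf ℓ T lay A f) : Leaf ℓ T lay A fun z => ¬ f z := by
  rcases h with h | ⟨i, τ, φ, hτ, h⟩
  · exact Or.inl h.not
  · exact Or.inr ⟨i, τ, fun s h a => ¬ φ s h a, hτ, fun x => not_congr (h x)⟩

theorem Leaf.lit {n r M : ℕ} {Γ : Type} {ℓ T : ℕ} {lay : ℕ → ℕ} {A : Fin r → Machine Γ M}
    (hℓ : 1 ≤ ℓ) (x : Fin n) (b : Bool) : Leaf ℓ T lay A fun z => z x = b :=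
  Or.inl ((DTle.lit x b).mono hℓ)

/-- A decision tree of small depth is a formula of depth two. -/
theorem DTle.toAC {X : Type} {D : ℕ} {f : (X → Bool) → Prop} (h : DTle D f) :
    AC (2 ^ D + D) 2 f := by
  obtain ⟨T, hT, hf⟩ := h
  suffices H : ∀ (T : DTree X) (D : ℕ), T.depth ≤ D →
      ∃ (m : ℕ) (L : Fin m → List (X × Bool)), m ≤ 2 ^ D ∧ (∀ i, (L i).length ≤ D) ∧
        ∀ z, T.eval z = true ↔ ∃ i, ∀ p ∈ L i, z p.1 = p.2 by
    obtain ⟨m, L, hm, hL, h⟩ := H T D hT
    have h2 : ∀ i, AC (2 ^ D + D) 1 fun z : X → Bool => ∀ p ∈ L i, z p.1 = p.2 := by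
      intro i
      refine (AC.all (s := 2 ^ D + D) (d := 0) (L i).length ((hL i).trans (by omega))
        (fun j z => z ((L i).get j).1 = ((L i).get j).2)
        (fun j => AC.lit _ _)).congr fun z => ?_
      constructor
      · intro hz p hp
        obtain ⟨j, rfl⟩ := List.get_of_mem hp
        exact hz j
      · intro hz j
        exact hz _ (List.get_mem _ _)
    exact (AC.ex m (by omega) _ h2).congr fun z => (h z).symm.trans (hf z)
  clear hf hT T D f
  intro T
  induction T with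
  | leaf b =>
    intro D _
    cases b
    · exact ⟨0, fun i => i.elim0, Nat.zero_le _, fun i => i.elim0, fun z => by
        simp [DTree.eval]⟩
    · exact ⟨1, fun _ => [], Nat.one_le_two_pow, fun _ => Nat.zero_le _, fun z => by
        simp [DTree.eval]⟩
  | node x l r ihl ihr =>
    intro D hD
    simp only [DTree.depth] at hD
    obtain ⟨D, rfl⟩ : ∃ D', D = D' + 1 := ⟨D - 1, by omega⟩
    obtain ⟨m1, L1, hm1, hL1, h1⟩ := ihl D (by omega)
    obtain ⟨m2, L2, hm2, hL2, h2⟩ := ihr D (by omega)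
    refine ⟨m1 + m2, Fin.append (fun i => (x, false) :: L1 i) (fun i => (x, true) :: L2 i), ?_,
      ?_, fun z => ?_⟩
    · rw [pow_succ]; omega
    · intro i
      refine Fin.addCases (fun i => ?_) (fun i => ?_) i
      · rw [Fin.append_left]; simpa using hL1 i
      · rw [Fin.append_right]; simpa using hL2 i
    · simp only [DTree.eval]
      constructor
      · intro h
        split_ifs at h with hx
        · obtain ⟨i, hi⟩ := (h2 z).1 h
          refine ⟨Fin.natAdd m1 i, ?_⟩
          rw [Fin.append_right]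
          intro p hp
          rcases List.mem_cons.1 hp with rfl | hp
          · exact hx
          · exact hi p hp
        · obtain ⟨i, hi⟩ := (h1 z).1 h
          refine ⟨Fin.castAdd m2 i, ?_⟩
          rw [Fin.append_left]
          intro p hp
          rcases List.mem_cons.1 hp with rfl | hp
          · simpa using hx
          · exact hi p hp
      · rintro ⟨i, hi⟩
        revert hi
        refine Fin.addCases (fun i => ?_) (fun i => ?_) i
        · rw [Fin.append_left]
          intro hi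
          have hx : z x = false := hi (x, false) (List.mem_cons_self ..)
          rw [if_neg (by simp [hx])]
          exact (h1 z).2 ⟨i, fun p hp => hi p (List.mem_cons_of_mem _ hp)⟩
        · rw [Fin.append_right]
          intro hi
          have hx : z x = true := hi (x, true) (List.mem_cons_self ..)
          rw [if_pos hx]
          exact (h2 z).2 ⟨i, fun p hp => hi p (List.mem_cons_of_mem _ hp)⟩

end Pool.Agent.W74_5f6b2a_tape
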