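import Pool.Agent.W74_5f6b2a_tape.Defs

/-!
Cut and paste for one-tape machines.
-/

namespace Pool.Agent.W74_5f6b2a_tape

namespace Machine

variable {Γ : Type} {M n : ℕ} (A : Machine Γ M) (lay ρ : ℕ → ℕ)

/-- The crossing at time `τ`, if there is one: position of the head and state after it. -/
def cross (x : Fin n → Bool) (τ : ℕ) : Option (ℕ × Fin (2 ^ M)) :=
  if ρ (A.run lay x τ).head ≠ ρ (A.run lay x (τ + 1)).head then
    some ((A.run lay x (τ + 1)).head, (A.run lay x (τ + 1)).state) else none

variable {A lay ρ} {T : ℕ}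

theorem same_region {x x' : Fin n → Bool} (h : ∀ τ < T, A.cross lay ρ x τ = A.cross lay ρ x' τ) :
    ∀ τ ≤ T, ρ (A.run lay x τ).head = ρ (A.run lay x' τ).head := by
  intro τ
  induction τ with
  | zero => intro _; rfl
  | succ τ ih =>
    intro hτ
    have ih := ih (by omega)
    have h1 := h τ (by omega)
    unfold cross at h1
    by_cases hx : ρ (A.run lay x τ).head ≠ ρ (A.run lay x (τ + 1)).head
    · rw [if_pos hx] at h1
      split_ifs at h1 with hx'
      simp only [Option.some.injEq, Prod.mk.injEq] at h1
      rw [h1.1]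
    · rw [if_neg hx] at h1
      split_ifs at h1 with hx'
      push Not at hx hx'
      rw [← hx, ih, hx']

theorem run_mix {u : ℕ → Fin n → Bool} {x : Fin n → Bool}
    (hu : ∀ r r', ∀ τ < T, A.cross lay ρ (u r) τ = A.cross lay ρ (u r') τ)
    (hx : ∀ h, bit x (lay h) = bit (u (ρ h)) (lay h)) : ∀ τ ≤ T,
      (A.run lay x τ).state = (A.run lay (u (ρ (A.run lay x τ).head)) τ).state ∧
      (A.run lay x τ).head = (A.run lay (u (ρ (A.run lay x τ).head)) τ).head ∧
      ∀ h, (A.run lay x τ).tape h = (A.run lay (u (ρ h)) τ).tape h := by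
  intro τ
  induction τ with
  | zero =>
    intro _
    refine ⟨rfl, rfl, fun h => ?_⟩
    show A.init h (bit x (lay h)) = A.init h (bit (u (ρ h)) (lay h))
    rw [hx]
  | succ τ ih =>
    intro hτ
    obtain ⟨ih1, ih2, ih3⟩ := ih (by omega)
    set c := A.run lay x τ with hc
    set r := ρ c.head with hr
    set cr := A.run lay (u r) τ with hcr
    have ht : c.tape c.head = cr.tape cr.head := by
      rw [ih3 c.head, ← hr, ← ih2]
    have e1 : (A.run lay x (τ + 1)).state = (A.run lay (u r) (τ + 1)).state := by
      show A.next τ c.state c.head (c.tape c.head) = A.next τ cr.state cr.head (cr.tape cr.head)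
      rw [ht, ih1, ih2]
    have e2 : (A.run lay x (τ + 1)).head = (A.run lay (u r) (τ + 1)).head := by
      show A.move τ c.state c.head (c.tape c.head) = A.move τ cr.state cr.head (cr.tape cr.head)
      rw [ht, ih1, ih2]
    have e3 : A.write τ c.state c.head (c.tape c.head) =
        A.write τ cr.state cr.head (cr.tape cr.head) := by
      rw [ht, ih1, ih2]
    have key : (A.run lay (u r) (τ + 1)).head =
          (A.run lay (u (ρ (A.run lay x (τ + 1)).head)) (τ + 1)).head ∧
        (A.run lay (u r) (τ + 1)).state =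
          (A.run lay (u (ρ (A.run lay x (τ + 1)).head)) (τ + 1)).state := by
      set r' := ρ (A.run lay x (τ + 1)).head with hr'
      by_cases hrr : r = r'
      · rw [← hrr]; exact ⟨rfl, rfl⟩
      · have h1 : ρ (A.run lay (u r) τ).head ≠ ρ (A.run lay (u r) (τ + 1)).head := by
          rw [← hcr, ← ih2, ← hr, ← e2, ← hr']
          exact hrr
        have h2 := hu r r' τ (by omega)
        unfold cross at h2
        rw [if_pos h1] at h2
        split_ifs at h2 with h3
        simp only [Option.some.injEq, Prod.mk.injEq] at h2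
        exact ⟨h2.1, h2.2⟩
    refine ⟨e1.trans key.2, e2.trans key.1, fun g => ?_⟩
    show Function.update c.tape c.head (A.write τ c.state c.head (c.tape c.head)) g =
      Function.update (A.run lay (u (ρ g)) τ).tape (A.run lay (u (ρ g)) τ).head
        (A.write τ (A.run lay (u (ρ g)) τ).state (A.run lay (u (ρ g)) τ).head
          ((A.run lay (u (ρ g)) τ).tape (A.run lay (u (ρ g)) τ).head)) g
    by_cases hg : g = c.head
    · rw [hg, ← hr, ← hcr, ← ih2, Function.update_self, Function.update_self, e3, ih2]
    · rw [Function.update_of_ne hg]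
      have hg' : g ≠ (A.run lay (u (ρ g)) τ).head := by
        intro hg'
        by_cases hrg : ρ g = r
        · apply hg
          rw [ih2, hcr, ← hrg, ← hg']
        · apply hrg
          have h1 := same_region (hu (ρ g) r) τ (by omega)
          rw [← hcr, ← ih2, ← hr, ← hg'] at h1
          exact h1
      rw [Function.update_of_ne hg', ih3 g]

/-- An observation of the run on a mixture is the observation of the run on one of the
components, which depends on the time only. -/
theorem look_mix {u : ℕ → Fin n → Bool} {x w : Fin n → Bool}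
    (hu : ∀ r, ∀ τ < T, A.cross lay ρ (u r) τ = A.cross lay ρ w τ)
    (hx : ∀ h, bit x (lay h) = bit (u (ρ h)) (lay h)) (φ : Fin (2 ^ M) → ℕ → Γ → Prop) {τ : ℕ} (hτ : τ ≤ T) :
    φ (A.run lay x τ).state (A.run lay x τ).head ((A.run lay x τ).tape (A.run lay x τ).head) ↔
      φ (A.run lay (u (ρ (A.run lay w τ).head)) τ).state (A.run lay (u (ρ (A.run lay w τ).head)) τ).head
        ((A.run lay (u (ρ (A.run lay w τ).head)) τ).tape (A.run lay (u (ρ (A.run lay w τ).head)) τ).head) := by
  obtain ⟨h1, h2, h3⟩ := run_mix (A := A) (lay := lay) (ρ := ρ) (T := T)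
    (fun r r' τ hτ => (hu r τ hτ).trans (hu r' τ hτ).symm) hx τ hτ
  have h4 : ρ (A.run lay w τ).head = ρ (A.run lay x τ).head := by
    have := same_region (hu (ρ (A.run lay x τ).head)) τ hτ
    rw [← this, ← h2]
  rw [h4]
  have h5 : (A.run lay x τ).tape (A.run lay x τ).head =
      (A.run lay (u (ρ (A.run lay x τ).head)) τ).tape (A.run lay (u (ρ (A.run lay x τ).head)) τ).head := by
    rw [h3 (A.run lay x τ).head, ← h2]
  rw [h5, h1.symm, h2.symm]

end Machine

end Pool.Agent.W74_5f6b2a_tape
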