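import Pool.Agent.W_MP_5f6b2a_lc.Basic

/-!
Reductions computed by bounded-depth formulas over decision trees of sublinear depth and over
observations of one-tape machines with a subquadratic product of time and control memory.
-/

namespace Pool.Agent.W74_5f6b2a_tape

open Pool.Agent.W_MP_5f6b2a_lc

/-! ### One-tape machines -/

/-- A (non-uniform) machine with one tape, whose cells are numbered by the natural numbers and
contain elements of an arbitrary set `Γ`, and with a control of `M` bits. At time `τ`, in the state
`s`, with the head on cell `h` and this cell containing `a`, the machine writes `write τ s h a`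
in the cell, moves its head to `move τ s h a` (at distance at most one) and goes to the state
`next τ s h a`. A cell `h` on which the bit `b` of the input is written contains `init h b` at
time `0`. -/
structure Machine (Γ : Type) (M : ℕ) where
  start : Fin (2 ^ M)
  origin : ℕ
  init : ℕ → Bool → Γ
  next : ℕ → Fin (2 ^ M) → ℕ → Γ → Fin (2 ^ M)
  write : ℕ → Fin (2 ^ M) → ℕ → Γ → Γ
  move : ℕ → Fin (2 ^ M) → ℕ → Γ → ℕ
  near : ∀ τ s h a, move τ s h a ≤ h + 1 ∧ h ≤ move τ s h a + 1

/-- Configurations: state, position of the head, contents of the tape. -/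
structure Conf (Γ : Type) (M : ℕ) where
  state : Fin (2 ^ M)
  head : ℕ
  tape : ℕ → Γ

/-- The bit number `p` of the input `x` (false if there is no such bit). -/
def bit {n : ℕ} (x : Fin n → Bool) (p : ℕ) : Bool := if hp : p < n then x ⟨p, hp⟩ else false

namespace Machine

variable {Γ : Type} {M n : ℕ} (A : Machine Γ M)

/-- One step at time `τ`. -/
def step (τ : ℕ) (c : Conf Γ M) : Conf Γ M where
  state := A.next τ c.state c.head (c.tape c.head)
  head := A.move τ c.state c.head (c.tape c.head)
  tape := Function.update c.tape c.head (A.write τ c.state c.head (c.tape c.head))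

/-- The configuration after `τ` steps on the input `x`, when the bit number `lay h` of `x` is
written on the cell `h` of the tape (and nothing if there is no such bit). -/
def run (lay : ℕ → ℕ) (x : Fin n → Bool) : ℕ → Conf Γ M
  | 0 => ⟨A.start, A.origin, fun h => A.init h (bit x (lay h))⟩
  | τ + 1 => A.step τ (run lay x τ)

end Machine

/-- The input of length `n` is written on the first `c * (n + 1)` cells of the tape, in any order,
and no bit of it is written on more than `c` cells. -/
def Layout (c n : ℕ) (lay : ℕ → ℕ) : Prop :=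
  (∀ h, lay h < n → h < c * (n + 1)) ∧
    ∀ p < n, ((Finset.range (c * (n + 1))).filter fun h => lay h = p).card ≤ c

/-! ### Formulas over a class of leaves -/

/-- `Form 𝓛 s d f`: the predicate `f` is computed by a formula of depth `d` with AND and OR gates
of fan-in at most `s` whose leaves are predicates in the class `𝓛`. -/
inductive Form {X : Type} (𝓛 : ((X → Bool) → Prop) → Prop) (s : ℕ) :
    ℕ → ((X → Bool) → Prop) → Prop
  | leaf (f : (X → Bool) → Prop) (hf : 𝓛 f) : Form 𝓛 s 0 f
  | all {d : ℕ} (m : ℕ) (hm : m ≤ s) (g : Fin m → (X → Bool) → Prop)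
      (hg : ∀ i, Form 𝓛 s d (g i)) : Form 𝓛 s (d + 1) fun z => ∀ i, g i z
  | ex {d : ℕ} (m : ℕ) (hm : m ≤ s) (g : Fin m → (X → Bool) → Prop)
      (hg : ∀ i, Form 𝓛 s d (g i)) : Form 𝓛 s (d + 1) fun z => ∃ i, g i z

/-- The leaves: predicates computed by decision trees of depth at most `ℓ`, and observations of
one of the machines `A i` at some time `τ ≤ T`: predicates of its state, of the position of its
head, and of the contents of the cell under the head. -/
def Leaf {n r M : ℕ} {Γ : Type} (ℓ T : ℕ) (lay : ℕ → ℕ) (A : Fin r → Machine Γ M)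
    (f : (Fin n → Bool) → Prop) : Prop :=
  DTle ℓ f ∨ ∃ (i : Fin r) (τ : ℕ) (φ : Fin (2 ^ M) → ℕ → Γ → Prop), τ ≤ T ∧ ∀ x, f x ↔
    φ ((A i).run lay x τ).state ((A i).run lay x τ).head
      (((A i).run lay x τ).tape ((A i).run lay x τ).head)

/-- `Q` is reducible to `Q'` by formulas of constant depth and fpt size over decision trees of
depth `O(n ^ β)` and observations of `r` one-tape machines with `M` bits of control, running for
`T ≥ n` steps, where `r * T * (M + 1)` is `O(n ^ (1 + α))`; the input may be written on the tape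
in any order, with at most constantly many copies of each bit. -/
def TapeReducible (α β : ℝ) (Q Q' : ParamProblem) : Prop :=
  ∃ (c : ℕ) (f g : ℕ → ℕ), ∀ k n : ℕ,
    ∃ (Γ : Type) (r M T ℓ : ℕ) (lay : ℕ → ℕ) (A : Fin r → Machine Γ M)
      (n' : ℕ) (R : (Fin n → Bool) → (Fin n' → Bool)) (κ : (Fin n → Bool) → ℕ),
      Layout c n lay ∧ n ≤ T ∧ (r * T * (M + 1) : ℝ) ≤ f k * (n + 1 : ℝ) ^ (1 + α) ∧
      (ℓ : ℝ) ≤ f k * (n + 1 : ℝ) ^ β ∧
      n' ≤ f k * (n + 1) ^ c ∧ (∀ x, κ x ≤ g k) ∧
      (∀ i, Form (Leaf ℓ T lay A) (f k * (n + 1) ^ c) c fun x => R x i = true) ∧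
      (∀ j, Form (Leaf ℓ T lay A) (f k * (n + 1) ^ c) c fun x => κ x = j) ∧
      ∀ x, Q n x k ↔ Q' n' (R x) (κ x)

/-- The analogue of `W[t]` with these reductions in place of fpt-reductions. -/
def WT (α β : ℝ) (t : ℕ) : Set ParamProblem :=
  {Q | ∃ d, 1 ≤ d ∧ TapeReducible α β Q (pWSAT t d)}

end Pool.Agent.W74_5f6b2a_tape
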