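import Pool.Agent.W74_5f6b2a_tape.Main

/-!
A reduction of the padded problem gives a para-AC0 reduction of the original problem.
-/

namespace Pool.Agent.W74_5f6b2a_tape

open Pool.Agent.W_MP_5f6b2a_lc

/-- Any function of few variables. -/
theorem brute {m s : ℕ} (hs : 2 ^ m + m ≤ s) (f : (Fin m → Bool) → Prop) : AC s 2 f := by
  refine ((DTle.toAC (D := m) ?_).mono_size hs)
  refine (DTle.of_depends Finset.univ f ?_).mono (by simp)
  intro z z' h
  have : z = z' := funext fun x => h x (Finset.mem_univ _)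
  rw [this]

theorem Layout.mono {c n : ℕ} {lay : ℕ → ℕ} (h : Layout c n lay) : Layout (c + 1) n lay := by
  refine ⟨fun k hk => (h.1 k hk).trans_le (Nat.mul_le_mul_right _ (by omega)), fun p hp => ?_⟩
  refine le_trans (Finset.card_le_card ?_) ((h.2 p hp).trans (by omega))
  intro k hk
  rw [Finset.mem_filter, Finset.mem_range] at hk ⊢
  exact ⟨h.1 k (by omega), hk.2⟩

/-- All formulas become plain formulas of constant depth when the input is restricted. -/
theorem forms_restrict {Γ : Type} {M r : ℕ} (A : Fin r → Machine Γ M) {lay : ℕ → ℕ}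
    {m L B K L₁ B' T ℓ b S c d Λ : ℕ} {ι : Type} [Fintype ι]
    (hlay : Layout c (m * (L * (m + B))) lay) (hK : c * (m * (L * (m + B)) + 1) ≤ K * Λ)
    (hm : 0 < m) (hΛ : 0 < Λ) (hL₁ : 0 < L₁) (hB' : 0 < B') (hL₁m : L₁ ≤ 2 ^ m)
    (hcount : (K + 1) ^ c * (L₁ * B + L * B') + 6 * c * m * Λ + L₁ * B < L * B) (hb : 1 ≤ b)
    (P : ι → (Fin (m * (L * (m + B))) → Bool) → Prop) (hP : ∀ u, Form (Leaf ℓ T lay A) S d (P u))
    (hq : Fintype.card ι * (max S 1) ^ d * (2 * ℓ) ^ b < B' ^ b)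
    (hprof : (Λ * (T * (2 * 2 ^ M) + 1) ^ (T / Λ)) ^ (r * K) < 2 ^ L₁) :
    ∃ σ : (Fin m → Bool) → Fin (m * (L * (m + B))) → Bool,
      (∀ y, unpad (σ y) = y) ∧ ∀ u, AC (max S (2 ^ b + b)) (2 + d) fun y => P u (σ y) := by
  classical
  choose F hF1 hF2 using fun u => (hP u).leaves
  let e := Fintype.equivFin (ι × Fin ((max S 1) ^ d))
  have hcard : Fintype.card (ι × Fin ((max S 1) ^ d)) = Fintype.card ι * (max S 1) ^ d := by
    simp
  let G : Fin (Fintype.card (ι × Fin ((max S 1) ^ d))) →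
      (Fin (m * (L * (m + B))) → Bool) → Prop := fun i =>
    if DTle ℓ (F (e.symm i).1 (e.symm i).2) then F (e.symm i).1 (e.symm i).2 else fun _ => True
  have hG : ∀ i, DTle ℓ (G i) := by
    intro i
    simp only [G]
    split_ifs with h
    · exact h
    · exact DTle.const True ℓ
  obtain ⟨σ, h1, h2, h3⟩ := restrict A hlay hK hm hΛ hL₁ hB' hL₁m hcount G hG
    (by rw [hcard]; exact hq) hprof
  refine ⟨σ, h1, fun u => ?_⟩
  refine (hF2 u).subst ?_
  rintro g ⟨hg, i, rfl⟩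
  refine DTle.toAC (D := b) ?_
  rcases hg with hg | ⟨i', τ, φ, hτ, hg⟩
  · have h4 := h2 (e (u, i))
    simp only [G, Equiv.symm_apply_apply, if_pos hg] at h4
    exact h4
  · exact ((h3 i' τ φ hτ).mono hb).congr fun y => (hg (σ y)).symm

/-- The plain code. -/
theorem exists_plain {m L B : ℕ} (hL : 0 < m → 2 ≤ L) (hB : 0 < m → 0 < B) :
    ∃ σ : (Fin m → Bool) → Fin (m * (L * (m + B))) → Bool, ∀ y, unpad (σ y) = y := by
  refine ⟨fun y p => Fin.addCases (motive := fun _ => Bool) (fun _ => false)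
    (fun _ => y ((posEquiv m L (m + B)).symm p).1) ((posEquiv m L (m + B)).symm p).2.2,
    fun y => ?_⟩
  funext i
  have hm : 0 < m := by have := i.2; omega
  have h2 := hL hm
  have h3 := hB hm
  unfold unpad
  simp only [posEquiv_symm, Fin.addCases_left, Fin.addCases_right]
  cases hy : y i
  · rw [decide_eq_false_iff_not]
    rintro ⟨u, v, -, -, ⟨b, hb⟩, -⟩
    exact absurd hb (by simp)
  · rw [decide_eq_true_iff]
    exact ⟨⟨0, by omega⟩, ⟨1, by omega⟩, by simp, fun _ => trivial, ⟨⟨0, h3⟩, by simp⟩, ⟨0, h3⟩,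
      by simp⟩

theorem elim {α β : ℝ} (hα : 0 ≤ α) (hβ : 0 ≤ β) (hαβ : α + β < 1) {Q Q' : ParamProblem}
    (hred : TapeReducible α β (Pad Q) Q') : ParaAC0Reducible Q Q' := by
  classical
  obtain ⟨c, f, g, hred⟩ := hred
  set c₁ := c + 1 with hc₁
  set q := 4 * c₁ + 1 with hq
  obtain ⟨a, b, ha, hb⟩ := exps hα hβ hαβ (2 * q + 13)
  set e₁ := a + 8 + q with he₁
  set e₂ := b + 2 + q with he₂
  set E := e₁ + e₂ with hE
  obtain ⟨m₁, hm₁⟩ := exists_pow_le (4 + E + a)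
  set s₁ := (3 + E) * c + 1 with hs₁
  set b₀ := s₁ * (c + 1) + 2 with hb₀
  let K : ℕ → ℕ := fun k => Nat.pair (Nat.pair e₁ e₂) k
  let m₀ : ℕ → ℕ := fun k => 16 * f (K k) + g (K k) + m₁ + 36 * c₁ ^ 2 + 5 * c₁ + 5
  let f' : ℕ → ℕ := fun k => f (K k) * 5 ^ c + (2 ^ m₀ k + m₀ k) + (2 ^ b₀ + b₀)
  have hK : ∀ k, (K k).unpair.1.unpair.1 = e₁ ∧ (K k).unpair.1.unpair.2 = e₂ ∧
      (K k).unpair.2 = k := by
    intro k
    simp [K]
  refine ⟨(1 + E) * c + c + 2, f', fun k => g (K k), fun k m => ?_⟩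
  set n := m * (2 * m ^ e₁ * (m + m ^ e₂)) with hn
  obtain ⟨Γ, r, M, T, ℓ, lay, A, n', R, κ, hlay, hT, hcost, hℓ, hn', hκ, hR, hκ', hQ⟩ :=
    hred (K k) n
  set S := f (K k) * (n + 1) ^ c with hS
  set c' := (1 + E) * c + c + 2 with hc'
  have hn1 : n + 1 ≤ 5 * (m + 1) ^ (1 + E) := by
    have h1 : n ≤ 4 * (m + 1) ^ (1 + E) := by
      have h2 : m + m ^ e₂ ≤ 2 * (m + 1) ^ e₂ := by
        have h3 : (m + 1) ^ 1 ≤ (m + 1) ^ e₂ := Nat.pow_le_pow_right (by omega) (by omega)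
        have h4 : m ^ e₂ ≤ (m + 1) ^ e₂ := Nat.pow_le_pow_left (by omega) _
        rw [pow_one] at h3
        omega
      calc n ≤ (m + 1) * (2 * (m + 1) ^ e₁ * (2 * (m + 1) ^ e₂)) :=
            Nat.mul_le_mul (by omega) (Nat.mul_le_mul (Nat.mul_le_mul_left _
              (Nat.pow_le_pow_left (by omega) _)) h2)
        _ = 4 * (m + 1) ^ (1 + E) := by rw [hE]; ring
    have h2 : 1 ≤ (m + 1) ^ (1 + E) := Nat.one_le_pow _ _ (by omega)
    omega
  have hSle : S ≤ f (K k) * 5 ^ c * (m + 1) ^ c' := by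
    have h1 : (n + 1) ^ c ≤ 5 ^ c * (m + 1) ^ ((1 + E) * c) := by
      refine (Nat.pow_le_pow_left hn1 c).trans ?_
      rw [mul_pow, ← pow_mul]
    rw [hS, mul_assoc]
    refine Nat.mul_le_mul_left _ (h1.trans (Nat.mul_le_mul_left _ ?_))
    exact Nat.pow_le_pow_right (by omega) (by omega)
  have hpow1 : 1 ≤ (m + 1) ^ c' := Nat.one_le_pow _ _ (by omega)
  have hSle' : S ≤ f' k * (m + 1) ^ c' := by
    refine hSle.trans (Nat.mul_le_mul_right _ ?_)
    exact (Nat.le_add_right _ _).trans (Nat.le_add_right _ _)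
  -- it suffices to find a restriction
  suffices H : ∃ (σ : (Fin m → Bool) → Fin n → Bool), (∀ y, unpad (σ y) = y) ∧
      (∀ i, AC (f' k * (m + 1) ^ c') c' fun y => R (σ y) i = true) ∧
      ∀ j, AC (f' k * (m + 1) ^ c') c' fun y => κ (σ y) = j by
    obtain ⟨σ, h1, h2, h3⟩ := H
    refine ⟨n', fun y => R (σ y), fun y => κ (σ y), hn'.trans hSle', fun y => hκ _, h2, h3,
      fun y => ?_⟩
    rw [← hQ (σ y)]
    obtain ⟨k1, k2, k3⟩ := hK k
    have h8 : ∀ (m' a b : ℕ) (hm' : m' = m) (ha : a = e₁) (hb : b = e₂)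
        (h : m' * (2 * m' ^ a * (m' + m' ^ b)) = n),
        (Q m' (unpad (σ y ∘ Fin.cast h)) k ↔ Q m y k) := by
      intro m' a b hm' ha hb h
      subst hm' ha hb
      have h9 : unpad (σ y ∘ Fin.cast h) = y := h1 y
      rw [h9]
    have h4 : Pad Q n (σ y) (K k) ↔ Q m y k := by
      constructor
      · rintro ⟨m', h, h5⟩
        rw [k3] at h5
        have h6 : m' = m := by
          have h7 := h
          rw [k1, k2] at h7
          exact len_inj e₁ e₂ (h7.trans hn)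
        exact (h8 m' _ _ h6 k1 k2 h).1 h5
      · intro h5
        have h7 : m * (2 * m ^ (K k).unpair.1.unpair.1 *
            (m + m ^ (K k).unpair.1.unpair.2)) = n := by
          rw [k1, k2]
        refine ⟨m, h7, ?_⟩
        rw [k3]
        exact (h8 m _ _ rfl k1 k2 h7).2 h5
    exact h4.symm
  by_cases hmk : m < m₀ k
  · -- small `m`
    obtain ⟨σ, hσ⟩ := exists_plain (m := m) (L := 2 * m ^ e₁) (B := m ^ e₂)
      (fun h => by
        have : 0 < m ^ e₁ := by positivity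
        omega) (fun h => by positivity)
    have h2 : 2 ^ m + m ≤ f' k * (m + 1) ^ c' := by
      have h3 : 2 ^ m ≤ 2 ^ m₀ k := Nat.pow_le_pow_right (by norm_num) hmk.le
      have h4 : f' k ≤ f' k * (m + 1) ^ c' := Nat.le_mul_of_pos_right _ hpow1
      have h5 : 2 ^ m₀ k + m₀ k ≤ f' k := (Nat.le_add_left _ _).trans (Nat.le_add_right _ _)
      exact (Nat.add_le_add h3 hmk.le).trans (h5.trans h4)
    have h1 : 1 ≤ f' k * (m + 1) ^ c' := by
      have : 1 ≤ 2 ^ m := Nat.one_le_two_pow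
      exact (this.trans (Nat.le_add_right _ _)).trans h2
    exact ⟨σ, hσ, fun i => (brute h2 _).mono_depth h1 (by omega),
      fun j => (brute h2 _).mono_depth h1 (by omega)⟩
  -- large `m`
  push Not at hmk
  have hmk' : 16 * f (K k) + g (K k) + m₁ + 36 * c₁ ^ 2 + 5 * c₁ + 5 ≤ m := hmk
  have hm2 : 2 ≤ m := by omega
  have hm1 : 1 ≤ m := by omega
  have hfm : 16 * f (K k) < m := by omega
  have hbig := hm₁ m (by omega)
  have hE' : E = a + b + (2 * q + 10) := by omega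
  have hn4 : n + 1 ≤ 5 * m ^ (1 + E) := by
    have h3 : m + m ^ e₂ ≤ 2 * m ^ e₂ := by
      have : m ^ 1 ≤ m ^ e₂ := Nat.pow_le_pow_right (by omega) (by omega)
      rw [pow_one] at this
      omega
    have h4 : n ≤ m * (2 * m ^ e₁ * (2 * m ^ e₂)) :=
      Nat.mul_le_mul_left _ (Nat.mul_le_mul_left _ h3)
    have h5 : m * (2 * m ^ e₁ * (2 * m ^ e₂)) = 4 * m ^ (1 + E) := by
      rw [hE]; ring
    have h6 : 1 ≤ m ^ (1 + E) := Nat.one_le_pow _ _ hm1
    omega
  have hne : n + 1 ≤ m ^ (3 + E) := by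
    refine hn4.trans ?_
    calc 5 * m ^ (1 + E) ≤ m * m ^ (1 + E) := Nat.mul_le_mul_right _ (by omega)
      _ ≤ m * m ^ (2 + E) := Nat.mul_le_mul_left _ (Nat.pow_le_pow_right hm1 (by omega))
      _ = m ^ (3 + E) := by rw [← pow_succ']; congr 1; omega
  have hexa : ((3 + E : ℕ) : ℝ) * α ≤ a := by
    have : ((3 + E : ℕ) : ℝ) = ((2 * q + 13 : ℕ) : ℝ) + a + b := by
      rw [hE']; push_cast; ring
    rw [this]; exact ha
  have hexb : ((3 + E : ℕ) : ℝ) * β ≤ b := by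
    have : ((3 + E : ℕ) : ℝ) = ((2 * q + 13 : ℕ) : ℝ) + a + b := by
      rw [hE']; push_cast; ring
    rw [this]; exact hb
  have hcost' : r * T * (M + 1) ≤ f (K k) * (n + 1) * m ^ a := by
    have h1 : ((n : ℝ) + 1) ^ (1 + α) = ((n : ℝ) + 1) * ((n : ℝ) + 1) ^ α := by
      rw [Real.rpow_add (by positivity), Real.rpow_one]
    have h2 : ((r * T * (M + 1) : ℕ) : ℝ) ≤ ((f (K k) * (n + 1) * m ^ a : ℕ) : ℝ) := by
      push_cast
      refine hcost.trans ?_
      rw [h1, ← mul_assoc]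
      exact mul_le_mul_of_nonneg_left (rpow_bound hα hm1 hne hexa) (by positivity)
    exact_mod_cast h2
  have hℓ' : ℓ ≤ f (K k) * m ^ b := by
    have h2 : (ℓ : ℝ) ≤ ((f (K k) * m ^ b : ℕ) : ℝ) := by
      push_cast
      exact hℓ.trans (mul_le_mul_of_nonneg_left (rpow_bound hβ hm1 hne hexb) (by positivity))
    exact_mod_cast h2
  -- the tape
  set Kt := m ^ 3 with hKt
  set Λ := c₁ * (n + 1) / Kt + 1 with hΛ
  have hKtpos : 0 < Kt := by positivity
  have hKΛ : c₁ * (n + 1) ≤ Kt * Λ := (Nat.lt_mul_div_succ _ hKtpos).le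
  have hnΛ : n + 1 ≤ Kt * Λ := by
    refine le_trans ?_ hKΛ
    exact Nat.le_mul_of_pos_left _ (by omega)
  have hn0 : 0 < n := by rw [hn]; positivity
  have hΛ2 : Λ ≤ 2 ^ m := by
    refine le_trans ?_ hbig
    have h1 : Λ ≤ c₁ * (n + 1) + 1 := Nat.add_le_add_right (Nat.div_le_self _ _) _
    have h2 : c₁ * (n + 1) + 1 ≤ (5 * c₁ + 1) * m ^ (1 + E) := by
      have h3 : 1 ≤ m ^ (1 + E) := Nat.one_le_pow _ _ hm1
      calc c₁ * (n + 1) + 1 ≤ c₁ * (5 * m ^ (1 + E)) + m ^ (1 + E) :=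
            Nat.add_le_add (Nat.mul_le_mul_left _ hn4) h3
        _ = _ := by ring
    refine h1.trans (h2.trans ?_)
    calc (5 * c₁ + 1) * m ^ (1 + E) ≤ m * m ^ (1 + E) := Nat.mul_le_mul_right _ (by omega)
      _ = m ^ (2 + E) := by rw [← pow_succ']; congr 1; omega
      _ ≤ m ^ (4 + E + a) := Nat.pow_le_pow_right hm1 (by omega)
  have hprof := profiles_lt (m := m) (a := a) (f := f (K k)) (n := n) (r := r) (T := T) (M := M)
    (E := E) (K := Kt) (Λ := Λ) (L₁ := m ^ (e₁ - q)) hm2 hfm rfl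
    (by congr 1; omega) hnΛ hn0 hne hΛ2 hT hcost' hbig
  have hcount := count_lt (m := m) (c := c₁) (q := q) (e₁ := e₁) (e₂ := e₂) (n := n) (K := Kt)
    (Λ := Λ) (by omega) (by omega) rfl (by omega) (by omega) hn rfl rfl
  have hL₁m : m ^ (e₁ - q) ≤ 2 ^ m :=
    (Nat.pow_le_pow_right hm1 (by omega)).trans hbig
  -- the number of leaves
  have hS2 : max S 1 ≤ m ^ s₁ := by
    have h1 : S ≤ m ^ s₁ := by
      rw [hS, hs₁, pow_succ, mul_comm (m ^ _) m, pow_mul]
      exact Nat.mul_le_mul (by omega) (Nat.pow_le_pow_left hne c)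
    exact max_le h1 (Nat.one_le_pow _ _ hm1)
  have hcardι : Fintype.card (Fin n' ⊕ Fin (g (K k) + 1)) ≤ m ^ (s₁ + 1) := by
    rw [Fintype.card_sum, Fintype.card_fin, Fintype.card_fin]
    have h1 : n' ≤ m ^ s₁ := (hn'.trans (le_max_left S 1)).trans hS2
    have h2 : g (K k) + 1 ≤ m ^ s₁ := by
      have h3 : m ^ 1 ≤ m ^ s₁ := Nat.pow_le_pow_right hm1 (by omega)
      rw [pow_one] at h3
      omega
    have h3 : 2 * m ^ s₁ ≤ m ^ (s₁ + 1) := by
      rw [pow_succ, mul_comm]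
      exact Nat.mul_le_mul_left _ hm2
    omega
  have hqlt : Fintype.card (Fin n' ⊕ Fin (g (K k) + 1)) * (max S 1) ^ c * (2 * ℓ) ^ b₀ <
      (m ^ (e₂ - q)) ^ b₀ := by
    have h1 : (max S 1) ^ c ≤ m ^ (s₁ * c) := by
      rw [pow_mul]
      exact Nat.pow_le_pow_left hS2 c
    have h2 : (2 * ℓ) ^ b₀ ≤ (m ^ (b + 1)) ^ b₀ := by
      refine Nat.pow_le_pow_left ?_ _
      calc 2 * ℓ ≤ 2 * (f (K k) * m ^ b) := Nat.mul_le_mul_left _ hℓ'
        _ = (2 * f (K k)) * m ^ b := by ring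
        _ ≤ m * m ^ b := Nat.mul_le_mul_right _ (by omega)
        _ = m ^ (b + 1) := by rw [pow_succ']
    calc Fintype.card (Fin n' ⊕ Fin (g (K k) + 1)) * (max S 1) ^ c * (2 * ℓ) ^ b₀
        ≤ m ^ (s₁ + 1) * m ^ (s₁ * c) * (m ^ (b + 1)) ^ b₀ :=
          Nat.mul_le_mul (Nat.mul_le_mul hcardι h1) h2
      _ = m ^ (s₁ * (c + 1) + 1) * (m ^ (b + 1)) ^ b₀ := by
          rw [← pow_add]
          congr 2
          ring
      _ < m ^ b₀ * (m ^ (b + 1)) ^ b₀ := by
          apply Nat.mul_lt_mul_of_pos_right _ (by positivity)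
          apply Nat.pow_lt_pow_right (by omega)
          omega
      _ = (m ^ (e₂ - q)) ^ b₀ := by
          rw [← mul_pow, ← pow_succ']
          congr 2
          omega
  obtain ⟨σ, hσ1, hσ2⟩ := forms_restrict A (L := 2 * m ^ e₁) (B := m ^ e₂)
    (L₁ := m ^ (e₁ - q)) (B' := m ^ (e₂ - q)) (K := Kt) (Λ := Λ) (c := c₁)
    (T := T) (ℓ := ℓ) (b := b₀) (S := S) (d := c) (ι := Fin n' ⊕ Fin (g (K k) + 1))
    hlay.mono hKΛ (by omega) (Nat.succ_pos _) (by positivity) (by positivity) hL₁m hcount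
    (by omega)
    (fun u x => match u with
      | Sum.inl i => R x i = true
      | Sum.inr j => κ x = j.1)
    (fun u => match u with
      | Sum.inl i => hR i
      | Sum.inr j => hκ' j.1) hqlt hprof
  have hmaxle : max S (2 ^ b₀ + b₀) ≤ f' k * (m + 1) ^ c' := by
    refine max_le hSle' ?_
    have h4 : f' k ≤ f' k * (m + 1) ^ c' := Nat.le_mul_of_pos_right _ hpow1
    exact (Nat.le_add_left _ _).trans h4
  have h1 : 1 ≤ f' k * (m + 1) ^ c' := by
    refine le_trans ?_ hmaxle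
    have : 1 ≤ 2 ^ b₀ := Nat.one_le_two_pow
    exact (this.trans (Nat.le_add_right _ _)).trans (le_max_right _ _)
  refine ⟨σ, hσ1, fun i => (hσ2 (Sum.inl i)).mono h1 hmaxle (by omega), fun j => ?_⟩
  by_cases hj : j < g (K k) + 1
  · exact (hσ2 (Sum.inr ⟨j, hj⟩)).mono h1 hmaxle (by omega)
  · refine (AC.const False (s := f' k * (m + 1) ^ c') (d := c') (by omega)).congr fun y => ?_
    have := hκ (σ y)
    constructor
    · exact False.elim
    · intro h
      omega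

end Pool.Agent.W74_5f6b2a_tape
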