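import Pool.Agent.W_MP_5f6b2a_lc.DT

/-!
Hiding the live positions: decision trees of depth `ℓ` become trees of constant depth when in each
cell of `B` positions only one random position is left alive.
-/

namespace Pool.Agent.W74_5f6b2a_tape

open Pool.Agent.W_MP_5f6b2a_lc

variable {C : Type} [Fintype C] [DecidableEq C] {B : ℕ}

/-- The restricted tree; `env` remembers the live cells which have been found. -/
def rest (j : C → Fin B) : DTree (C × Fin B) → (C → Option (Fin B × Bool)) → DTree C
  | DTree.leaf b, _ => DTree.leaf b
  | DTree.node x l r, env =>
    match env x.1 with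
    | some (p, v) => if p = x.2 ∧ v = true then rest j r env else rest j l env
    | none => if j x.1 = x.2 then
        DTree.node x.1 (rest j l (Function.update env x.1 (some (x.2, false))))
          (rest j r (Function.update env x.1 (some (x.2, true))))
      else rest j l env

/-- The live positions compatible with the memory. -/
def cons (env : C → Option (Fin B × Bool)) : Finset (C → Fin B) :=
  Finset.univ.filter fun j => ∀ c p v, env c = some (p, v) → j c = p

theorem mem_cons {env : C → Option (Fin B × Bool)} {j : C → Fin B} :
    j ∈ cons env ↔ ∀ c p v, env c = some (p, v) → j c = p := by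
  simp [cons]

theorem rest_eval (j : C → Fin B) (z : C → Bool) : ∀ (T : DTree (C × Fin B))
    (env : C → Option (Fin B × Bool)), (∀ c p v, env c = some (p, v) → j c = p ∧ z c = v) →
    (rest j T env).eval z = T.eval fun x => decide (j x.1 = x.2) && z x.1 := by
  intro T
  induction T with
  | leaf b => intro env _; rfl
  | node x l r ihl ihr =>
    intro env henv
    rw [rest]
    cases hx : env x.1 with
    | none =>
      by_cases hj : j x.1 = x.2
      · simp only [hj, if_true, DTree.eval, decide_true, Bool.true_and]
        have h2 : ∀ v, z x.1 = v → ∀ c p v', Function.update env x.1 (some (x.2, v)) c =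
            some (p, v') → j c = p ∧ z c = v' := by
          intro v hv c p v' h
          by_cases hc : c = x.1
          · subst hc
            rw [Function.update_self] at h
            simp only [Option.some.injEq, Prod.mk.injEq] at h
            exact ⟨hj.trans h.1, hv.trans h.2⟩
          · rw [Function.update_of_ne hc] at h
            exact henv c p v' h
        by_cases hz : z x.1 = true
        · rw [if_pos hz, if_pos hz]
          exact ihr _ (h2 true hz)
        · rw [if_neg hz, if_neg hz]
          exact ihl _ (h2 false (by simpa using hz))
      · simp only [hj, if_false, DTree.eval, decide_false, Bool.false_and]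
        exact ihl env henv
    | some pv =>
      obtain ⟨p, v⟩ := pv
      obtain ⟨h1, h2⟩ := henv _ _ _ hx
      simp only [DTree.eval]
      by_cases hpv : p = x.2 ∧ v = true
      · rw [if_pos hpv, if_pos (by simp [h1, h2, hpv.1, hpv.2])]
        exact ihr env henv
      · rw [if_neg hpv, if_neg (by
          simp only [h1, h2, Bool.and_eq_true, decide_eq_true_eq]
          exact hpv)]
        exact ihl env henv

theorem card_cons {env : C → Option (Fin B × Bool)} {c : C} (hc : env c = none) (p : Fin B) :
    B * ((cons env).filter fun j => j c = p).card = (cons env).card := by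
  classical
  have h1 : (cons env).card = ∑ p' : Fin B, ((cons env).filter fun j => j c = p').card :=
    Finset.card_eq_sum_card_fiberwise fun j _ => Finset.mem_univ _
  have h2 : ∀ p' : Fin B, ((cons env).filter fun j => j c = p').card =
      ((cons env).filter fun j => j c = p).card := by
    have key : ∀ p' p'' : Fin B, ((cons env).filter fun j => j c = p').card ≤
        ((cons env).filter fun j => j c = p'').card := by
      intro p' p''
      refine Finset.card_le_card_of_injOn (fun j => Function.update j c p'') ?_ ?_
      · intro j hj
        simp only [Finset.coe_filter, Set.mem_setOf_eq, mem_cons] at hj ⊢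
        refine ⟨fun c' q v h => ?_, by simp⟩
        have hne : c' ≠ c := by
          rintro rfl
          rw [hc] at h
          exact absurd h (by simp)
        rw [Function.update_of_ne hne]
        exact hj.1 c' q v h
      · intro j hj j' hj' h
        simp only [Finset.coe_filter, Set.mem_setOf_eq] at hj hj'
        funext c'
        by_cases hne : c' = c
        · rw [hne, hj.2, hj'.2]
        · have := congrFun h c'
          simpa only [Function.update_of_ne hne] using this
    intro p'
    exact le_antisymm (key _ _) (key _ _)
  rw [h1, Finset.sum_congr rfl fun p' _ => h2 p']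
  simp

theorem cons_update {env : C → Option (Fin B × Bool)} {c : C} (hc : env c = none) (p : Fin B)
    (v : Bool) : cons (Function.update env c (some (p, v))) =
      (cons env).filter fun j => j c = p := by
  ext j
  simp only [mem_cons, Finset.mem_filter]
  constructor
  · intro h
    refine ⟨fun c' q v' h' => ?_, h c p v (by simp)⟩
    have hne : c' ≠ c := by
      rintro rfl
      rw [hc] at h'
      exact absurd h' (by simp)
    exact h c' q v' (by rwa [Function.update_of_ne hne])
  · rintro ⟨h1, h2⟩ c' q v' h'
    by_cases hne : c' = c
    · subst hne
      rw [Function.update_self] at h'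
      simp only [Option.some.injEq, Prod.mk.injEq] at h'
      exact h2.trans h'.1
    · rw [Function.update_of_ne hne] at h'
      exact h1 c' q v' h'

theorem count_rest : ∀ (T : DTree (C × Fin B)) (env : C → Option (Fin B × Bool)) (b : ℕ),
    B ^ b * ((cons env).filter fun j => b ≤ (rest j T env).depth).card ≤
      (cons env).card * (2 * T.depth) ^ b := by
  classical
  intro T
  induction T with
  | leaf v =>
    intro env b
    cases b with
    | zero => simp
    | succ b =>
      have : ((cons env).filter fun j => b + 1 ≤ (rest j (DTree.leaf v) env).depth) = ∅ := by
        apply Finset.filter_false_of_mem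
        intro j _
        simp [rest, DTree.depth]
      rw [this]
      simp
  | node x l r ihl ihr =>
    intro env b
    have hl : l.depth ≤ max l.depth r.depth := le_max_left _ _
    have hr : r.depth ≤ max l.depth r.depth := le_max_right _ _
    set D := max l.depth r.depth with hD
    have hDd : (DTree.node x l r).depth = D + 1 := rfl
    rw [hDd]
    have mono : ∀ (a b : ℕ), a ≤ D → (2 * a) ^ b ≤ (2 * D) ^ b := fun a b h =>
      Nat.pow_le_pow_left (by omega) b
    cases b with
    | zero =>
      simp only [pow_zero, one_mul, mul_one]
      exact Finset.card_filter_le _ _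
    | succ b =>
      cases hx : env x.1 with
      | some pv =>
        obtain ⟨p, v⟩ := pv
        have key : ∀ j, rest j (DTree.node x l r) env =
            if p = x.2 ∧ v = true then rest j r env else rest j l env := by
          intro j
          rw [rest, hx]
        have hle : (2 * D) ^ (b + 1) ≤ (2 * (D + 1)) ^ (b + 1) :=
          Nat.pow_le_pow_left (by omega) _
        by_cases hpv : p = x.2 ∧ v = true
        · simp only [key, if_pos hpv]
          exact (ihr env (b + 1)).trans (Nat.mul_le_mul_left _ ((mono _ _ hr).trans hle))
        · simp only [key, if_neg hpv]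
          exact (ihl env (b + 1)).trans (Nat.mul_le_mul_left _ ((mono _ _ hl).trans hle))
      | none =>
        have key : ∀ j, rest j (DTree.node x l r) env = if j x.1 = x.2 then
            DTree.node x.1 (rest j l (Function.update env x.1 (some (x.2, false))))
              (rest j r (Function.update env x.1 (some (x.2, true))))
            else rest j l env := by
          intro j
          rw [rest, hx]
        set ef := Function.update env x.1 (some (x.2, false)) with hef
        set et := Function.update env x.1 (some (x.2, true)) with het
        have hsub : ((cons env).filter fun j => b + 1 ≤ (rest j (DTree.node x l r) env).depth) ⊆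
            (((cons ef).filter fun j => b ≤ (rest j l ef).depth) ∪
              ((cons et).filter fun j => b ≤ (rest j r et).depth)) ∪
              ((cons env).filter fun j => b + 1 ≤ (rest j l env).depth) := by
          intro j hj
          simp only [Finset.mem_filter, Finset.mem_union] at hj ⊢
          rw [key] at hj
          by_cases hjx : j x.1 = x.2
          · rw [if_pos hjx] at hj
            left
            have hjc : j ∈ (cons env).filter fun j => j x.1 = x.2 :=
              Finset.mem_filter.2 ⟨hj.1, hjx⟩
            have h2 := hj.2
            simp only [DTree.depth] at h2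
            rcases le_total (rest j l ef).depth (rest j r et).depth with h3 | h3
            · right
              refine ⟨?_, by omega⟩
              rw [het, cons_update hx]
              exact hjc
            · left
              refine ⟨?_, by omega⟩
              rw [hef, cons_update hx]
              exact hjc
          · rw [if_neg hjx] at hj
            exact Or.inr hj
        have hcard := (Finset.card_le_card hsub).trans ((Finset.card_union_le _ _).trans
          (Nat.add_le_add_right (Finset.card_union_le _ _) _))
        have hf := ihl ef b
        have ht := ihr et b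
        have h0 := ihl env (b + 1)
        rw [hef, cons_update hx, ← hef] at hf
        rw [het, cons_update hx, ← het] at ht
        have hB := card_cons hx x.2
        set K := ((cons env).filter fun j => j x.1 = x.2).card with hK
        set Nf := ((cons ef).filter fun j => b ≤ (rest j l ef).depth).card with hNf
        set Nt := ((cons et).filter fun j => b ≤ (rest j r et).depth).card with hNt
        set N0 := ((cons env).filter fun j => b + 1 ≤ (rest j l env).depth).card with hN0
        have hf' : B ^ b * Nf ≤ K * (2 * D) ^ b := by
          refine le_trans ?_ (hf.trans (Nat.mul_le_mul_left _ (mono _ _ hl)))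
          rw [hNf, hef, cons_update hx]
        have ht' : B ^ b * Nt ≤ K * (2 * D) ^ b := by
          refine le_trans ?_ (ht.trans (Nat.mul_le_mul_left _ (mono _ _ hr)))
          rw [hNt, het, cons_update hx]
        have h0' : B ^ (b + 1) * N0 ≤ (cons env).card * (2 * D) ^ (b + 1) :=
          h0.trans (Nat.mul_le_mul_left _ (mono _ _ hl))
        have hpow : 2 * (2 * D) ^ b + (2 * D) ^ (b + 1) ≤ (2 * (D + 1)) ^ (b + 1) := by
          calc 2 * (2 * D) ^ b + (2 * D) ^ (b + 1) = (2 * (D + 1)) * (2 * D) ^ b := by ring
            _ ≤ (2 * (D + 1)) * (2 * (D + 1)) ^ b :=
              Nat.mul_le_mul_left _ (Nat.pow_le_pow_left (by omega) _)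
            _ = _ := by ring
        calc B ^ (b + 1) * _ ≤ B ^ (b + 1) * (Nf + Nt + N0) := Nat.mul_le_mul_left _ hcard
          _ = B * (B ^ b * Nf) + B * (B ^ b * Nt) + B ^ (b + 1) * N0 := by ring
          _ ≤ B * (K * (2 * D) ^ b) + B * (K * (2 * D) ^ b) +
              (cons env).card * (2 * D) ^ (b + 1) :=
            Nat.add_le_add (Nat.add_le_add (Nat.mul_le_mul_left _ hf') (Nat.mul_le_mul_left _ ht'))
              h0'
          _ = (cons env).card * (2 * (2 * D) ^ b + (2 * D) ^ (b + 1)) := by rw [← hB]; ring
          _ ≤ _ := Nat.mul_le_mul_left _ hpow

/-- Live positions which make all trees shallow. -/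
theorem exists_hide {ℓ b q : ℕ} (hB : 1 ≤ B) (F : Fin q → ((C × Fin B → Bool) → Prop))
    (hF : ∀ i, DTle ℓ (F i)) (h : q * (2 * ℓ) ^ b < B ^ b) :
    ∃ j : C → Fin B, ∀ i, DTle b fun z => F i fun x => decide (j x.1 = x.2) && z x.1 := by
  classical
  choose T hT1 hT2 using hF
  have : Nonempty (Fin B) := ⟨⟨0, hB⟩⟩
  by_contra hne
  push Not at hne
  set e0 : C → Option (Fin B × Bool) := fun _ => none with he0
  have hall : cons e0 = Finset.univ := by
    ext j
    simp [mem_cons, he0]
  have hbad : (Finset.univ : Finset (C → Fin B)) ⊆
      Finset.univ.biUnion fun i : Fin q => (cons e0).filter fun j => b ≤ (rest j (T i) e0).depth := by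
    intro j _
    obtain ⟨i, hi⟩ := hne j
    simp only [Finset.mem_biUnion, Finset.mem_univ, true_and, Finset.mem_filter, hall]
    refine ⟨i, ?_⟩
    by_contra hlt
    push Not at hlt
    apply hi
    refine ⟨rest j (T i) e0, hlt.le, fun z => ?_⟩
    rw [rest_eval j z (T i) e0 (fun c p v h => by simp [he0] at h), hT2]
  have h1 := (Finset.card_le_card hbad).trans Finset.card_biUnion_le
  have h2 : B ^ b * ∑ i : Fin q, ((cons e0).filter fun j => b ≤ (rest j (T i) e0).depth).card ≤
      q * ((cons e0).card * (2 * ℓ) ^ b) := by
    rw [Finset.mul_sum]
    refine (Finset.sum_le_sum fun i _ => (count_rest (T i) e0 b).trans (Nat.mul_le_mul_left _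
      (Nat.pow_le_pow_left (Nat.mul_le_mul_left 2 (hT1 i)) b))).trans ?_
    simp
  rw [hall] at h2
  set N := (Finset.univ : Finset (C → Fin B)).card with hN
  have hNpos : 0 < N := Finset.card_pos.2 Finset.univ_nonempty
  have h3 : B ^ b * N ≤ q * (N * (2 * ℓ) ^ b) := by
    refine (Nat.mul_le_mul_left _ h1).trans ?_
    rw [hall]
    exact h2
  have h4 : N * (q * (2 * ℓ) ^ b) < N * B ^ b := Nat.mul_lt_mul_of_pos_left h hNpos
  have h5 : q * (N * (2 * ℓ) ^ b) = N * (q * (2 * ℓ) ^ b) := by ring
  rw [h5, mul_comm (B ^ b)] at h3
  omega

end Pool.Agent.W74_5f6b2a_tape
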