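import Pool.Agent.W74_5f6b2a_tape.Pad
import Pool.Agent.W_MP_5f6b2a_lc.ACTools

/-!
The padded problem is reducible to the original problem.
-/

namespace Pool.Agent.W74_5f6b2a_tape

open Pool.Agent.W_MP_5f6b2a_lc

theorem len_lt {m m' : ℕ} (e e' : ℕ) (h : m < m') :
    m * (2 * m ^ e * (m + m ^ e')) < m' * (2 * m' ^ e * (m' + m' ^ e')) := by
  have h1 : 2 * m ^ e * (m + m ^ e') ≤ 2 * m' ^ e * (m' + m' ^ e') :=
    Nat.mul_le_mul (Nat.mul_le_mul_left _ (Nat.pow_le_pow_left h.le _))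
      (Nat.add_le_add h.le (Nat.pow_le_pow_left h.le _))
  have h2 : 0 < 2 * m' ^ e * (m' + m' ^ e') := by
    have : 0 < m' := by omega
    positivity
  exact (Nat.mul_le_mul_left m h1).trans_lt (Nat.mul_lt_mul_of_pos_right h h2)

theorem len_inj {m m' : ℕ} (e e' : ℕ)
    (h : m * (2 * m ^ e * (m + m ^ e')) = m' * (2 * m' ^ e * (m' + m' ^ e'))) : m = m' := by
  rcases lt_trichotomy m m' with h1 | h1 | h1
  · exact absurd h (len_lt e e' h1).ne
  · exact h1
  · exact absurd h (len_lt e e' h1).ne'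

theorem pad_iff {Q : ParamProblem} {m n K : ℕ}
    (h : m * (2 * m ^ K.unpair.1.unpair.1 * (m + m ^ K.unpair.1.unpair.2)) = n)
    (x : Fin n → Bool) : Pad Q n x K ↔ Q m (unpad (x ∘ Fin.cast h)) K.unpair.2 := by
  constructor
  · rintro ⟨m', h', hQ⟩
    obtain rfl : m' = m := len_inj _ _ (h'.trans h.symm)
    exact hQ
  · intro hQ
    exact ⟨m, h, hQ⟩

theorem unpad_AC {m L B s : ℕ} (hs : 2 ≤ s) (hL : L * L ≤ s) (hB : B ≤ s) (hm : m ≤ s)
    (i : Fin m) : AC s 7 fun x : Fin (m * (L * (m + B))) → Bool => unpad x i = true := by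
  have hs1 : 1 ≤ s := by omega
  have h1 : ∀ u : Fin L, AC s 1 fun x : Fin (m * (L * (m + B))) → Bool =>
      ∃ b : Fin B, x (pos i u (Fin.natAdd m b)) = true := fun u =>
    AC.ex B hB (fun b x => x (pos i u (Fin.natAdd m b)) = true) fun b => AC.lit _ true
  have h2 : ∀ u v : Fin L, AC s 3 fun x : Fin (m * (L * (m + B))) → Bool =>
      ∀ b : Fin m, x (pos i u (Fin.castAdd B b)) = x (pos i v (Fin.castAdd B b)) := by
    intro u v
    refine AC.all m hm (fun b x => x (pos i u (Fin.castAdd B b)) = x (pos i v (Fin.castAdd B b)))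
      fun b => ?_
    refine (AC.iff hs (AC.lit (pos i u (Fin.castAdd B b)) true)
      (AC.lit (pos i v (Fin.castAdd B b)) true)).congr fun x => ?_
    cases x (pos i u (Fin.castAdd B b)) <;> cases x (pos i v (Fin.castAdd B b)) <;> simp
  have h3 : ∀ u v : Fin L, AC s 6 fun x : Fin (m * (L * (m + B))) → Bool => u ≠ v ∧
      (∀ b : Fin m, x (pos i u (Fin.castAdd B b)) = x (pos i v (Fin.castAdd B b))) ∧
      (∃ b : Fin B, x (pos i u (Fin.natAdd m b)) = true) ∧
      ∃ b : Fin B, x (pos i v (Fin.natAdd m b)) = true := by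
    intro u v
    refine AC.const_and _ (by omega) ?_
    refine AC.mono_depth (d := 4) hs1 (by omega) ?_
    exact AC.and hs (h2 u v) ((AC.and hs (h1 u) (h1 v)).mono_depth hs1 (by omega))
  refine (AC.exists_fintype (ι := Fin L × Fin L) (by simpa using hL) fun p => h3 p.1 p.2).congr
    fun x => ?_
  unfold unpad
  rw [decide_eq_true_iff]
  constructor
  · rintro ⟨p, hp⟩
    exact ⟨p.1, p.2, hp⟩
  · rintro ⟨u, v, hp⟩
    exact ⟨(u, v), hp⟩

theorem cast_AC {n n' s d : ℕ} (h : n = n') {f : (Fin n → Bool) → Prop} (hf : AC s d f) :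
    AC s d fun x : Fin n' → Bool => f (x ∘ Fin.cast h) := by
  subst h
  exact hf

/-- The padded problem is reducible to the original one. -/
theorem pad_reducible (Q : ParamProblem) (h0 : ∀ x k, ¬ Q 0 x k) :
    ParaAC0Reducible (Pad Q) Q := by
  refine ⟨7, fun _ => 2, fun K => K.unpair.2, fun K n => ?_⟩
  have hpow : n + 1 ≤ (n + 1) ^ 7 := Nat.le_self_pow (by omega) _
  have hj : ∀ j, AC (X := Fin n) (2 * (n + 1) ^ 7) 7 fun _ => K.unpair.2 = j := fun j =>
    AC.const_succ _ _
  by_cases hm : ∃ m, m * (2 * m ^ K.unpair.1.unpair.1 * (m + m ^ K.unpair.1.unpair.2)) = n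
  · obtain ⟨m, h⟩ := hm
    set L := 2 * m ^ K.unpair.1.unpair.1 with hL
    set B := m ^ K.unpair.1.unpair.2 with hB
    refine ⟨m, fun x => unpad (x ∘ Fin.cast h), fun _ => K.unpair.2, ?_, fun _ => le_rfl, ?_, hj,
      fun x => pad_iff h x⟩
    · rcases Nat.eq_zero_or_pos m with h1 | h1
      · omega
      · have h2 : 0 < L * (m + B) := by positivity
        have h3 : m * 1 ≤ m * (L * (m + B)) := Nat.mul_le_mul_left m h2
        beta_reduce
        omega
    · intro i
      have h1 : 0 < m := by have := i.2; omega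
      have hL1 : 0 < L := by positivity
      have hB1 : 0 < B := by positivity
      have h3 : L * (m + B) ≤ m * (L * (m + B)) := Nat.le_mul_of_pos_left _ h1
      have h4 : L ≤ L * (m + B) := Nat.le_mul_of_pos_right _ (by omega)
      have h5 : m + B ≤ L * (m + B) := Nat.le_mul_of_pos_left _ hL1
      have h6 : L * L ≤ (n + 1) ^ 7 := by
        calc L * L ≤ (n + 1) * (n + 1) := Nat.mul_le_mul (by omega) (by omega)
          _ = (n + 1) ^ 2 := by ring
          _ ≤ (n + 1) ^ 7 := Nat.pow_le_pow_right (by omega) (by omega)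
      beta_reduce
      exact cast_AC h (unpad_AC (by omega) (by omega) (by omega) (by omega) i)
  · refine ⟨0, fun _ i => i.elim0, fun _ => K.unpair.2, Nat.zero_le _, fun _ => le_rfl,
      fun i => i.elim0, hj, fun x => ?_⟩
    constructor
    · rintro ⟨m, h, -⟩
      exact absurd ⟨m, h⟩ hm
    · intro h
      exact absurd h (h0 _ _)

/-- There are no circuits of length zero. -/
theorem pWSAT_zero (t d : ℕ) (x : Fin 0 → Bool) (k : ℕ) : ¬ pWSAT t d 0 x k := by
  rintro ⟨N, h, -⟩
  have : 0 < (N + 1) * (N + 3) := by positivity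
  omega

theorem pad_mem (t d : ℕ) (hd : 1 ≤ d) : Pad (pWSAT t d) ∈ W t :=
  ⟨d, hd, pad_reducible _ (pWSAT_zero t d)⟩

end Pool.Agent.W74_5f6b2a_tape
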