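import Pool.Agent.W74_5f6b2a_tape.Restrict
import Pool.Agent.W74_5f6b2a_tape.Member
import Pool.Agent.W74_5f6b2a_tape.Forms

/-!
A reduction of the padded problem gives a para-AC0 reduction of the original problem.
-/

namespace Pool.Agent.W74_5f6b2a_tape

open Pool.Agent.W_MP_5f6b2a_lc

theorem exps {α β : ℝ} (hα : 0 ≤ α) (hβ : 0 ≤ β) (h : α + β < 1) (c : ℕ) :
    ∃ a b : ℕ, (c + a + b : ℝ) * α ≤ a ∧ (c + a + b : ℝ) * β ≤ b := by
  obtain ⟨K, hK⟩ := exists_nat_ge ((c * (α + β) + 2) / (1 - (α + β)))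
  have hK' : c * (α + β) + 2 ≤ K * (1 - (α + β)) := by
    rwa [div_le_iff₀ (by linarith)] at hK
  have ha := Nat.ceil_lt_add_one (a := (c + K : ℝ) * α) (by positivity)
  have hb := Nat.ceil_lt_add_one (a := (c + K : ℝ) * β) (by positivity)
  have ha' := Nat.le_ceil ((c + K : ℝ) * α)
  have hb' := Nat.le_ceil ((c + K : ℝ) * β)
  set a := ⌈(c + K : ℝ) * α⌉₊ with had
  set b := ⌈(c + K : ℝ) * β⌉₊ with hbd
  have hab : (a + b : ℝ) ≤ K := by nlinarith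
  have h1 : (c + a + b : ℝ) ≤ c + K := by linarith
  exact ⟨a, b, (mul_le_mul_of_nonneg_right h1 hα).trans ha',
    (mul_le_mul_of_nonneg_right h1 hβ).trans hb'⟩

theorem rpow_bound {α : ℝ} {n m e a : ℕ} (hα : 0 ≤ α) (hm : 1 ≤ m) (hn : n + 1 ≤ m ^ e)
    (he : (e : ℝ) * α ≤ a) : ((n : ℝ) + 1) ^ α ≤ (m : ℝ) ^ a := by
  have hm' : (1 : ℝ) ≤ m := by exact_mod_cast hm
  have hn' : ((n : ℝ) + 1) ≤ (m : ℝ) ^ e := by exact_mod_cast hn
  calc ((n : ℝ) + 1) ^ α ≤ ((m : ℝ) ^ e) ^ α :=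
        Real.rpow_le_rpow (by positivity) hn' hα
    _ = (m : ℝ) ^ ((e : ℝ) * α) := by
        rw [Real.rpow_mul (by positivity), Real.rpow_natCast]
    _ ≤ (m : ℝ) ^ (a : ℝ) := Real.rpow_le_rpow_of_exponent_le hm' he
    _ = (m : ℝ) ^ a := Real.rpow_natCast _ _

theorem exists_pow_le (X : ℕ) : ∃ m₁ : ℕ, ∀ m, m₁ ≤ m → m ^ X ≤ 2 ^ m := by
  have h1 : Filter.Tendsto (fun m : ℕ => (m : ℝ) ^ X / (2 : ℝ) ^ m) Filter.atTop (nhds 0) := by
    have := tendsto_pow_const_div_const_pow_of_one_lt X (r := (2 : ℝ)) (by norm_num)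
    simpa using this
  have h2 := h1.eventually (gt_mem_nhds (show (0 : ℝ) < 1 by norm_num))
  obtain ⟨m₁, hm₁⟩ := Filter.eventually_atTop.1 h2
  refine ⟨m₁, fun m hm => ?_⟩
  have h3 := hm₁ m hm
  rw [div_lt_one (by positivity)] at h3
  exact_mod_cast h3.le

/-- The number of profiles is small. -/
theorem profiles_lt {m a f n r T M E K Λ L₁ : ℕ} (hm2 : 2 ≤ m) (hf : 16 * f < m)
    (hK : K = m ^ 3) (hL₁ : L₁ = m ^ (a + 8)) (hnΛ : n + 1 ≤ K * Λ) (hn0 : 0 < n)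
    (hnE : n + 1 ≤ m ^ (3 + E)) (hΛ2 : Λ ≤ 2 ^ m)
    (hT : n ≤ T) (hcost : r * T * (M + 1) ≤ f * (n + 1) * m ^ a)
    (hbig : m ^ (4 + E + a) ≤ 2 ^ m) :
    (Λ * (T * (2 * 2 ^ M) + 1) ^ (T / Λ)) ^ (r * K) < 2 ^ L₁ := by
  have hm0 : 0 < m := by omega
  rcases Nat.eq_zero_or_pos r with hr | hr
  · subst hr
    have h1 : 0 < L₁ := by rw [hL₁]; positivity
    simpa using Nat.one_lt_two_pow h1.ne'
  have hKpos : 0 < K := by rw [hK]; positivity
  have hΛpos : 0 < Λ := by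
    rcases Nat.eq_zero_or_pos Λ with h | h
    · subst h; omega
    · exact h
  set C := T / Λ with hC
  have hCΛ : Λ * C ≤ T := Nat.mul_div_le T Λ
  have hT2 : 2 * T + 1 ≤ 2 ^ m := by
    have h1 : T ≤ r * T * (M + 1) := by
      calc T = 1 * T * 1 := by ring
        _ ≤ r * T * (M + 1) := Nat.mul_le_mul (Nat.mul_le_mul_right _ hr) (by omega)
    have h2 : T ≤ f * m ^ (3 + E) * m ^ a :=
      (h1.trans hcost).trans (Nat.mul_le_mul_right _ (Nat.mul_le_mul_left _ hnE))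
    have h3 : f * m ^ (3 + E) * m ^ a = f * m ^ (3 + E + a) := by ring
    rw [h3] at h2
    have h6 : 0 < m ^ (3 + E + a) := by positivity
    have h7 : 2 * f + 1 ≤ m := by omega
    calc 2 * T + 1 ≤ 2 * (f * m ^ (3 + E + a)) + m ^ (3 + E + a) := by omega
      _ = (2 * f + 1) * m ^ (3 + E + a) := by ring
      _ ≤ m * m ^ (3 + E + a) := Nat.mul_le_mul_right _ h7
      _ = m ^ (4 + E + a) := by rw [← pow_succ']; congr 1; omega
      _ ≤ 2 ^ m := hbig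
  have hbase : Λ * (T * (2 * 2 ^ M) + 1) ^ C ≤ 2 ^ (m + (m + M) * C) := by
    rw [pow_add, pow_mul]
    refine Nat.mul_le_mul hΛ2 (Nat.pow_le_pow_left ?_ _)
    rw [pow_add]
    have h1 : 1 ≤ 2 ^ M := Nat.one_le_two_pow
    calc T * (2 * 2 ^ M) + 1 ≤ T * (2 * 2 ^ M) + 2 ^ M := by omega
      _ = (2 * T + 1) * 2 ^ M := by ring
      _ ≤ _ := Nat.mul_le_mul_right _ hT2
  refine (Nat.pow_le_pow_left hbase _).trans_lt ?_
  rw [← pow_mul]
  apply Nat.pow_lt_pow_right (by norm_num)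
  -- the exponents
  have hrC : r * (M + 1) * C ≤ f * m ^ (a + 3) := by
    have h1 : Λ * (r * (M + 1) * C) ≤ Λ * (f * m ^ (a + 3)) := by
      calc Λ * (r * (M + 1) * C) = r * (Λ * C) * (M + 1) := by ring
        _ ≤ r * T * (M + 1) := Nat.mul_le_mul_right _ (Nat.mul_le_mul_left _ hCΛ)
        _ ≤ f * (n + 1) * m ^ a := hcost
        _ ≤ f * (K * Λ) * m ^ a := Nat.mul_le_mul_right _ (Nat.mul_le_mul_left _ hnΛ)
        _ = Λ * (f * m ^ (a + 3)) := by rw [hK]; ring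
    exact Nat.le_of_mul_le_mul_left h1 hΛpos
  have hr2 : r ≤ 2 * f * m ^ a := by
    have h1 : n * r ≤ n * (2 * f * m ^ a) := by
      calc n * r = r * n * 1 := by ring
        _ ≤ r * T * (M + 1) := Nat.mul_le_mul (Nat.mul_le_mul_left _ hT) (by omega)
        _ ≤ f * (n + 1) * m ^ a := hcost
        _ ≤ f * (2 * n) * m ^ a := by
          refine Nat.mul_le_mul_right _ (Nat.mul_le_mul_left _ ?_)
          omega
        _ = n * (2 * f * m ^ a) := by ring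
    exact Nat.le_of_mul_le_mul_left h1 hn0
  have hmM : m + M ≤ m * (M + 1) := by
    have : M ≤ m * M := Nat.le_mul_of_pos_left _ (by omega)
    calc m + M ≤ m + m * M := by omega
      _ = _ := by ring
  have hX : r * (m + (m + M) * C) ≤ 3 * f * m ^ (a + 4) := by
    calc r * (m + (m + M) * C) ≤ r * (m + m * (M + 1) * C) :=
          Nat.mul_le_mul_left _ (Nat.add_le_add_left (Nat.mul_le_mul_right _ hmM) _)
      _ = r * m + m * (r * (M + 1) * C) := by ring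
      _ ≤ 2 * f * m ^ a * m + m * (f * m ^ (a + 3)) :=
          Nat.add_le_add (Nat.mul_le_mul_right _ hr2) (Nat.mul_le_mul_left _ hrC)
      _ = 2 * f * m ^ (a + 1) + f * m ^ (a + 4) := by ring
      _ ≤ 2 * f * m ^ (a + 4) + f * m ^ (a + 4) :=
          Nat.add_le_add_right (Nat.mul_le_mul_left _
            (Nat.pow_le_pow_right (by omega) (by omega))) _
      _ = _ := by ring
  calc (m + (m + M) * C) * (r * K) = K * (r * (m + (m + M) * C)) := by ring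
    _ ≤ K * (3 * f * m ^ (a + 4)) := Nat.mul_le_mul_left _ hX
    _ = 3 * f * m ^ (a + 7) := by rw [hK]; ring
    _ < m * m ^ (a + 7) := Nat.mul_lt_mul_of_pos_right (by omega) (by positivity)
    _ = L₁ := by
      rw [hL₁, ← pow_succ']

/-- The greedy choice is possible. -/
theorem count_lt {m c q e₁ e₂ n K Λ : ℕ} (hc : 1 ≤ c) (hm : 36 * c ^ 2 + 4 < m)
    (hq : q = 4 * c + 1) (he₁ : q + 2 ≤ e₁) (he₂ : q + 1 ≤ e₂)
    (hn : n = m * (2 * m ^ e₁ * (m + m ^ e₂))) (hK : K = m ^ 3) (hΛ : Λ = c * (n + 1) / K + 1) :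
    (K + 1) ^ c * (m ^ (e₁ - q) * m ^ e₂ + 2 * m ^ e₁ * m ^ (e₂ - q)) + 6 * c * m * Λ +
      m ^ (e₁ - q) * m ^ e₂ < 2 * m ^ e₁ * m ^ e₂ := by
  have hm0 : 0 < m := by omega
  have hm2 : 2 ≤ m := by omega
  set E := e₁ + e₂ with hE
  have p1 : m ^ (e₁ - q) * m ^ e₂ = m ^ (E - q) := by
    rw [← pow_add]; congr 1; omega
  have p2 : 2 * m ^ e₁ * m ^ (e₂ - q) = 2 * m ^ (E - q) := by
    rw [mul_assoc, ← pow_add]; congr 2; omega
  have p3 : 2 * m ^ e₁ * m ^ e₂ = 2 * m ^ E := by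
    rw [mul_assoc, ← pow_add]
  rw [p1, p2, p3]
  have hK1 : (K + 1) ^ c ≤ m ^ (4 * c) := by
    rw [pow_mul]
    refine Nat.pow_le_pow_left ?_ _
    have h1 : 1 ≤ m ^ 3 := Nat.one_le_pow _ _ hm0
    calc K + 1 ≤ m ^ 3 * 2 := by omega
      _ ≤ m ^ 3 * m := Nat.mul_le_mul_left _ hm2
      _ = m ^ 4 := by ring
  have h1 : (K + 1) ^ c * (m ^ (E - q) + 2 * m ^ (E - q)) ≤ 3 * m ^ (E - 1) := by
    calc (K + 1) ^ c * (m ^ (E - q) + 2 * m ^ (E - q))
        ≤ m ^ (4 * c) * (m ^ (E - q) + 2 * m ^ (E - q)) := Nat.mul_le_mul_right _ hK1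
      _ = 3 * (m ^ (4 * c) * m ^ (E - q)) := by ring
      _ = 3 * m ^ (E - 1) := by
        rw [← pow_add]; congr 2; omega
  have h2 : m ^ (E - q) ≤ m ^ (E - 1) := Nat.pow_le_pow_right hm0 (by omega)
  have hn2 : n + 1 ≤ 5 * m ^ (1 + E) := by
    have h3 : m + m ^ e₂ ≤ 2 * m ^ e₂ := by
      have : m ^ 1 ≤ m ^ e₂ := Nat.pow_le_pow_right hm0 (by omega)
      rw [pow_one] at this
      omega
    have h4 : n ≤ m * (2 * m ^ e₁ * (2 * m ^ e₂)) := by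
      rw [hn]
      exact Nat.mul_le_mul_left _ (Nat.mul_le_mul_left _ h3)
    have h5 : m * (2 * m ^ e₁ * (2 * m ^ e₂)) = 4 * m ^ (1 + E) := by
      rw [hE]; ring
    have h6 : 1 ≤ m ^ (1 + E) := Nat.one_le_pow _ _ hm0
    omega
  have hΛ2 : Λ ≤ 6 * c * m ^ (E - 2) := by
    have h3 : c * (n + 1) / K ≤ 5 * c * m ^ (E - 2) := by
      apply Nat.div_le_of_le_mul
      calc c * (n + 1) ≤ c * (5 * m ^ (1 + E)) := Nat.mul_le_mul_left _ hn2
        _ = 5 * c * m ^ (3 + (E - 2)) := by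
          rw [show 3 + (E - 2) = 1 + E by omega]; ring
        _ = K * (5 * c * m ^ (E - 2)) := by rw [pow_add, hK]; ring
    have h4 : 1 ≤ c * m ^ (E - 2) := Nat.mul_pos hc (by positivity)
    have h5 : 5 * c * m ^ (E - 2) = 5 * (c * m ^ (E - 2)) := by ring
    have h6 : 6 * c * m ^ (E - 2) = 6 * (c * m ^ (E - 2)) := by ring
    omega
  have h3 : 6 * c * m * Λ ≤ 36 * c ^ 2 * m ^ (E - 1) := by
    calc 6 * c * m * Λ ≤ 6 * c * m * (6 * c * m ^ (E - 2)) := Nat.mul_le_mul_left _ hΛ2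
      _ = 36 * c ^ 2 * m ^ ((E - 2) + 1) := by ring
      _ = _ := by congr 2; omega
  have h4 : (36 * c ^ 2 + 4) * m ^ (E - 1) < m * m ^ (E - 1) :=
    Nat.mul_lt_mul_of_pos_right hm (by positivity)
  have h5 : m * m ^ (E - 1) = m ^ E := by
    rw [← pow_succ']; congr 1; omega
  have h6 : (36 * c ^ 2 + 4) * m ^ (E - 1) = 36 * c ^ 2 * m ^ (E - 1) + 4 * m ^ (E - 1) := by
    ring
  omega

end Pool.Agent.W74_5f6b2a_tape
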