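import Pool.Agent.W74_5f6b2a_tape.Elim
import Pool.Agent.W_MP_5f6b2a_lc.Valid

/-!
Inclusions between the classes.
-/

namespace Pool.Agent.W74_5f6b2a_tape

open Pool.Agent.W_MP_5f6b2a_lc

theorem Layout.mono_le {c c' n : ℕ} {lay : ℕ → ℕ} (h : Layout c n lay) (hc : c ≤ c') :
    Layout c' n lay := by
  induction hc with
  | refl => exact h
  | step _ ih => exact ih.mono

/-- The trivial machine. -/
def trivialMachine : Machine Unit 0 where
  start := 0
  origin := 0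
  init _ _ := ()
  next _ _ _ _ := 0
  write _ _ _ _ := ()
  move _ _ h _ := h
  near _ _ h _ := ⟨Nat.le_succ h, Nat.le_succ h⟩

/-- Para-AC0 reductions are a special case. -/
theorem tape_of_AC {α β : ℝ} (hβ : 0 ≤ β) {Q Q' : ParamProblem}
    (h : ParaAC0Reducible Q Q') : TapeReducible α β Q Q' := by
  obtain ⟨c, f, g, h⟩ := h
  refine ⟨c, fun k => f k + 1, g, fun k n => ?_⟩
  obtain ⟨n', R, κ, hn', hκ, hR, hκ', hQ⟩ := h k n
  have hle : f k * (n + 1) ^ c ≤ (f k + 1) * (n + 1) ^ c := Nat.mul_le_mul_right _ (by omega)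
  have hone : (1 : ℝ) ≤ ((n : ℝ) + 1) ^ β :=
    Real.one_le_rpow (by linarith [(Nat.cast_nonneg n : (0 : ℝ) ≤ n)]) hβ
  refine ⟨Unit, 0, 0, n, 1, fun _ => n, fun i => i.elim0, n', R, κ, ⟨?_, ?_⟩, le_rfl, ?_, ?_,
    hn'.trans hle, hκ, ?_, ?_, hQ⟩
  · intro h hh
    exact absurd hh (lt_irrefl _)
  · intro p hp
    rw [Finset.filter_false_of_mem]
    · simp
    · intro x _ hx
      beta_reduce at hx
      omega
  · simp only [Nat.cast_zero, zero_mul]
    positivity
  · push_cast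
    have hf : (0 : ℝ) ≤ f k := Nat.cast_nonneg _
    nlinarith
  · intro i
    exact Form.of_AC (fun x b => Leaf.lit le_rfl x b) ((hR i).mono_size hle)
  · intro j
    exact Form.of_AC (fun x b => Leaf.lit le_rfl x b) ((hκ' j).mono_size hle)

theorem W_subset_WT {α β : ℝ} (hβ : 0 ≤ β) (t : ℕ) : W t ⊆ WT α β t := by
  rintro Q ⟨d, hd, h⟩
  exact ⟨d, hd, tape_of_AC hβ h⟩

open ValidAux in
theorem WT_subset (α β : ℝ) (t : ℕ) : WT α β t ⊆ WT α β (t + 1) := by
  classical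
  rintro Q ⟨d, hd, c, f, g, hred⟩
  obtain ⟨c0, hc0⟩ := inClass_AC t d
  refine ⟨d, hd, c * (c0 + 1) + c + c0 + 1, fun k => (f k + 2) ^ (c0 + 1), g, fun k n => ?_⟩
  obtain ⟨Γ, r, M, T, ℓ, lay, A, n', R, κ, hlay, hT, hcost, hℓ, hn', hκ, hR, hκ', hQ⟩ := hred k n
  set S := (f k + 2) ^ (c0 + 1) * (n + 1) ^ (c * (c0 + 1) + c + c0 + 1) with hS
  have hcc : c ≤ c * (c0 + 1) + c + c0 + 1 := by omega
  have hlay' := hlay.mono_le hcc
  have hfk : f k ≤ (f k + 2) ^ (c0 + 1) := by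
    calc f k ≤ f k + 2 := by omega
      _ = (f k + 2) ^ 1 := (pow_one _).symm
      _ ≤ _ := Nat.pow_le_pow_right (by omega) (by omega)
  have hfk' : (f k : ℝ) ≤ (((f k + 2) ^ (c0 + 1) : ℕ) : ℝ) := by exact_mod_cast hfk
  have hcost' : (r * T * (M + 1) : ℝ) ≤ (((f k + 2) ^ (c0 + 1) : ℕ) : ℝ) *
      (n + 1 : ℝ) ^ (1 + α) :=
    hcost.trans (mul_le_mul_of_nonneg_right hfk' (by positivity))
  have hℓ' : (ℓ : ℝ) ≤ (((f k + 2) ^ (c0 + 1) : ℕ) : ℝ) * (n + 1 : ℝ) ^ β :=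
    hℓ.trans (mul_le_mul_of_nonneg_right hfk' (by positivity))
  have hnot : ∀ f : (Fin n → Bool) → Prop, Leaf ℓ T lay A f → Leaf ℓ T lay A fun z => ¬ f z :=
    fun f hf => hf.not
  have hpow1 : 1 ≤ (n + 1) ^ (c * (c0 + 1) + c + c0 + 1) := Nat.one_le_pow _ _ (by omega)
  have hS2 : 2 ≤ S := by
    have h1 : 2 ≤ (f k + 2) ^ (c0 + 1) := by
      calc 2 ≤ f k + 2 := by omega
        _ = (f k + 2) ^ 1 := (pow_one _).symm
        _ ≤ _ := Nat.pow_le_pow_right (by omega) (by omega)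
    calc 2 = 2 * 1 := rfl
      _ ≤ S := Nat.mul_le_mul h1 hpow1
  have hS1 : 1 ≤ S := by omega
  have hSf : f k * (n + 1) ^ c ≤ S := by
    apply Nat.mul_le_mul hfk
    exact Nat.pow_le_pow_right (by omega) (by nlinarith [Nat.zero_le c, Nat.zero_le c0])
  have hSc : (f k * (n + 1) ^ c) ^ c0 ≤ S := by
    rw [mul_pow, ← pow_mul]
    apply Nat.mul_le_mul
    · calc f k ^ c0 ≤ (f k + 2) ^ c0 := Nat.pow_le_pow_left (by omega) _
        _ ≤ _ := Nat.pow_le_pow_right (by omega) (by omega)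
    · exact Nat.pow_le_pow_right (by omega) (by nlinarith [Nat.zero_le c, Nat.zero_le c0])
  have hκ'' : ∀ j, Form (Leaf ℓ T lay A) S (c * (c0 + 1) + c + c0 + 1) fun x => κ x = j :=
    fun j => Form.mono hS1 hSf hcc (hκ' j)
  by_cases hN : ∃ N, (N + 1) * (N + 3) = n'
  · obtain ⟨N, rfl⟩ := hN
    refine ⟨Γ, r, M, T, ℓ, lay, A, (N + 1) * (N + 3),
      fun x i => R x i && decide ((decode N (R x)).InClass t d), κ, hlay', hT, hcost', hℓ',
      hn'.trans hSf, hκ, fun i => ?_, hκ'', fun x => ?_⟩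
    · have h1 := Form.comp (φ := R) hnot hR (hc0 N)
      have hN2 : (N + 2) ^ c0 ≤ S := by
        refine (Nat.pow_le_pow_left ?_ c0).trans hSc
        refine le_trans ?_ hn'
        nlinarith [Nat.zero_le N]
      have h2 : Form (Leaf ℓ T lay A) S (c + c0) fun x => (decode N (R x)).InClass t d :=
        h1.mono_size (max_le hN2 hSf)
      have h3 : Form (Leaf ℓ T lay A) S (c + c0) fun x => R x i = true :=
        Form.mono hS1 hSf (by omega) (hR i)
      refine ((Form.and hS2 h3 h2).mono_depth hS1 ?_).congr fun x => ?_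
      · nlinarith [Nat.zero_le c, Nat.zero_le c0]
      · simp
    · rw [hQ, pWSAT_iff, pWSAT_iff]
      beta_reduce
      by_cases hx : (decode N (R x)).InClass t d
      · have : (fun i => R x i && decide ((decode N (R x)).InClass t d)) = R x := by
          funext i
          simp [hx]
        rw [this]
        exact ⟨fun h => ⟨inClass_mono h.1, h.2⟩, fun h => ⟨hx, h.2⟩⟩
      · have : (fun i => R x i && decide ((decode N (R x)).InClass t d)) = fun _ => false := by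
          funext i
          simp [hx]
        rw [this]
        exact ⟨fun h => absurd h.1 hx, fun h => absurd h.1.1 (not_correct_false N)⟩
  · refine ⟨Γ, r, M, T, ℓ, lay, A, n', R, κ, hlay', hT, hcost', hℓ', hn'.trans hSf, hκ,
      fun i => Form.mono hS1 hSf hcc (hR i), hκ'', fun x => ?_⟩
    rw [hQ]
    constructor
    · rintro ⟨N, h, _⟩
      exact absurd ⟨N, h⟩ hN
    · rintro ⟨N, h, _⟩
      exact absurd ⟨N, h⟩ hN

end Pool.Agent.W74_5f6b2a_tape
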