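import Pool.Agent.W_MP_5f6b2a_lc.Defs

/-!
The padded problems.
-/

namespace Pool.Agent.W74_5f6b2a_tape

open Pool.Agent.W_MP_5f6b2a_lc

/-- The position number `b` of the word number `u` of the block number `i`. -/
def pos {m L N : ℕ} (i : Fin m) (u : Fin L) (b : Fin N) : Fin (m * (L * N)) :=
  finProdFinEquiv (i, finProdFinEquiv (u, b))

/-- The bit string coded by `x`, a string of `m` blocks of `L` words of length `m + B`. The first
`m` letters of a word form its label, the other `B` letters form its field. The bit number `i` is
true if and only if in the block number `i` there are two different words with the same label and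
with nonzero fields. -/
def unpad {m L B : ℕ} (x : Fin (m * (L * (m + B))) → Bool) (i : Fin m) : Bool :=
  decide (∃ u v : Fin L, u ≠ v ∧
    (∀ b : Fin m, x (pos i u (Fin.castAdd B b)) = x (pos i v (Fin.castAdd B b))) ∧
    (∃ b : Fin B, x (pos i u (Fin.natAdd m b)) = true) ∧
    ∃ b : Fin B, x (pos i v (Fin.natAdd m b)) = true)

/-- The padded version of the problem `Q`: the parameter codes `e`, `e'` and a parameter `k` of
`Q`, and the input codes a string of length `m` by `m` blocks of `2 * m ^ e` words with labels of
length `m` and fields of length `m ^ e'`. -/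
def Pad (Q : ParamProblem) : ParamProblem := fun n x K =>
  ∃ (m : ℕ) (h : m * (2 * m ^ K.unpair.1.unpair.1 * (m + m ^ K.unpair.1.unpair.2)) = n),
    Q m (unpad (x ∘ Fin.cast h)) K.unpair.2

end Pool.Agent.W74_5f6b2a_tape
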