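import Pool.Agent.W74_5f6b2a_tape.Cut

/-!
Crossing sequences: among sufficiently many inputs there are many with the same crossings at
suitable cuts, one in each of the desert zones `[r * W + a, (r + 1) * W)`.
-/

namespace Pool.Agent.W74_5f6b2a_tape

/-- The region of a position: the number of cuts at or before it. -/
def reg (cut : ℕ → ℕ) (R h : ℕ) : ℕ := ((Finset.range R).filter fun r => cut r ≤ h).card

namespace Machine

variable {Γ : Type} {M n : ℕ} (A : Machine Γ M) (lay : ℕ → ℕ)

/-- The head crosses the cut `d` in the step at time `τ`. -/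
def Crosses (x : Fin n → Bool) (d τ : ℕ) : Prop :=
  ¬ (d ≤ (A.run lay x τ).head ↔ d ≤ (A.run lay x (τ + 1)).head)

open Classical in
/-- The crossings of the cut `d` during the first `T` steps. -/
noncomputable def data (x : Fin n → Bool) (d T : ℕ) : Finset (Fin T × Bool × Fin (2 ^ M)) :=
  (Finset.univ.filter fun τ : Fin T => A.Crosses lay x d τ).image fun τ =>
    (τ, decide (d ≤ (A.run lay x (τ + 1)).head), (A.run lay x (τ + 1)).state)

theorem near_run (x : Fin n → Bool) (τ : ℕ) : (A.run lay x (τ + 1)).head ≤ (A.run lay x τ).head + 1 ∧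
    (A.run lay x τ).head ≤ (A.run lay x (τ + 1)).head + 1 := A.near τ _ _ _

variable {A lay}

theorem of_data {x x' : Fin n → Bool} {d T τ : ℕ} (hd : A.data lay x d T = A.data lay x' d T)
    (hτ : τ < T) (hc : A.Crosses lay x d τ) :
    (A.run lay x' τ).head = (A.run lay x τ).head ∧ (A.run lay x' (τ + 1)).head = (A.run lay x (τ + 1)).head ∧
      (A.run lay x' (τ + 1)).state = (A.run lay x (τ + 1)).state := by
  classical
  have h1 : (⟨τ, hτ⟩, decide (d ≤ (A.run lay x (τ + 1)).head), (A.run lay x (τ + 1)).state) ∈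
      A.data lay x d T := by
    unfold data
    exact Finset.mem_image.2 ⟨⟨τ, hτ⟩, Finset.mem_filter.2 ⟨Finset.mem_univ _, hc⟩, rfl⟩
  rw [hd] at h1
  unfold data at h1
  obtain ⟨τ', hτ', he⟩ := Finset.mem_image.1 h1
  have hc' := (Finset.mem_filter.1 hτ').2
  simp only [Prod.mk.injEq] at he
  obtain ⟨rfl, he1, he2⟩ := he
  unfold Crosses at hc hc'
  simp only at hc' he1 he2
  have n1 := A.near_run lay x τ
  have n2 := A.near_run lay x' τ
  rw [decide_eq_decide] at he1
  refine ⟨?_, ?_, he2⟩
  · by_cases hh : d ≤ (A.run lay x (τ + 1)).head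
    · have := he1.2 hh
      have h3 : ¬ d ≤ (A.run lay x τ).head := fun h => hc ⟨fun _ => hh, fun _ => h⟩
      have h4 : ¬ d ≤ (A.run lay x' τ).head := fun h => hc' ⟨fun _ => this, fun _ => h⟩
      omega
    · have : ¬ d ≤ (A.run lay x' (τ + 1)).head := fun h => hh (he1.1 h)
      have h3 : d ≤ (A.run lay x τ).head := by
        by_contra h
        exact hc ⟨fun h' => (h h').elim, fun h' => (hh h').elim⟩
      have h4 : d ≤ (A.run lay x' τ).head := by
        by_contra h
        exact hc' ⟨fun h' => (h h').elim, fun h' => (this h').elim⟩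
      omega
  · by_cases hh : d ≤ (A.run lay x (τ + 1)).head
    · have := he1.2 hh
      have h3 : ¬ d ≤ (A.run lay x τ).head := fun h => hc ⟨fun _ => hh, fun _ => h⟩
      have h4 : ¬ d ≤ (A.run lay x' τ).head := fun h => hc' ⟨fun _ => this, fun _ => h⟩
      omega
    · have : ¬ d ≤ (A.run lay x' (τ + 1)).head := fun h => hh (he1.1 h)
      have h3 : d ≤ (A.run lay x τ).head := by
        by_contra h
        exact hc ⟨fun h' => (h h').elim, fun h' => (hh h').elim⟩
      have h4 : d ≤ (A.run lay x' τ).head := by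
        by_contra h
        exact hc' ⟨fun h' => (h h').elim, fun h' => (this h').elim⟩
      omega

theorem exists_crosses {cut : ℕ → ℕ} {R : ℕ} {x : Fin n → Bool} {τ : ℕ}
    (h : reg cut R (A.run lay x τ).head ≠ reg cut R (A.run lay x (τ + 1)).head) :
    ∃ r < R, A.Crosses lay x (cut r) τ := by
  by_contra hne
  push Not at hne
  apply h
  unfold reg
  congr 1
  apply Finset.filter_congr
  intro r hr
  have := hne r (Finset.mem_range.1 hr)
  unfold Crosses at this
  exact not_not.1 this

theorem cross_eq {cut : ℕ → ℕ} {R T : ℕ} {x x' : Fin n → Bool}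
    (hd : ∀ r < R, A.data lay x (cut r) T = A.data lay x' (cut r) T) :
    ∀ τ < T, A.cross lay (reg cut R) x τ = A.cross lay (reg cut R) x' τ := by
  intro τ hτ
  unfold cross
  by_cases h : reg cut R (A.run lay x τ).head ≠ reg cut R (A.run lay x (τ + 1)).head
  · obtain ⟨r, hr, hc⟩ := exists_crosses h
    obtain ⟨h1, h2, h3⟩ := of_data (hd r hr) hτ hc
    rw [h1, h2, h3]
  · by_cases h' : reg cut R (A.run lay x' τ).head ≠ reg cut R (A.run lay x' (τ + 1)).head
    · obtain ⟨r, hr, hc⟩ := exists_crosses h'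
      obtain ⟨h1, h2, h3⟩ := of_data (hd r hr).symm hτ hc
      rw [h1, h2, h3]
    · rw [if_neg h, if_neg h']

theorem exists_cut (A : Machine Γ M) (lay : ℕ → ℕ) (x : Fin n → Bool) (T c D : ℕ) (hD : 0 < D) :
    ∃ e : Fin D, (A.data lay x (c + e) T).card ≤ T / D := by
  classical
  have h1 : ∑ e : Fin D, (Finset.univ.filter fun τ : Fin T => A.Crosses lay x (c + e) τ).card ≤ T := by
    have h2 : ∑ e : Fin D, (Finset.univ.filter fun τ : Fin T => A.Crosses lay x (c + e) τ).card =
        (Finset.univ.biUnion fun e : Fin D =>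
          Finset.univ.filter fun τ : Fin T => A.Crosses lay x (c + e) τ).card := by
      rw [Finset.card_biUnion]
      intro e _ e' _ hne
      refine Finset.disjoint_left.2 ?_
      intro τ h3 h4
      have h3 := (Finset.mem_filter.1 h3).2
      have h4 := (Finset.mem_filter.1 h4).2
      unfold Crosses at h3 h4
      have h5 := A.near_run lay x τ
      apply hne
      apply Fin.ext
      omega
    rw [h2]
    exact (Finset.card_le_univ _).trans (by simp)
  have : Nonempty (Fin D) := ⟨⟨0, hD⟩⟩
  obtain ⟨e, -, he⟩ := Finset.exists_le_of_sum_le (s := (Finset.univ : Finset (Fin D)))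
    (f := fun e : Fin D =>
      D * (Finset.univ.filter fun τ : Fin T => A.Crosses lay x (c + e.1) τ).card)
    (g := fun _ => T) Finset.univ_nonempty (by
      rw [← Finset.mul_sum]
      simpa using Nat.mul_le_mul_left D h1)
  refine ⟨e, ?_⟩
  rw [Nat.le_div_iff_mul_le hD, mul_comm]
  refine le_trans (Nat.mul_le_mul_left _ ?_) he
  unfold data
  exact Finset.card_image_le

end Machine

/-- A finite set with at most `C` elements coded by a function on `Fin C`. -/
noncomputable def code {α : Type} (C : ℕ) (s : Finset α) : Fin C → Option α :=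
  fun i => s.toList[i.1]?

theorem code_inj {α : Type} {C : ℕ} {s t : Finset α} (hs : s.card ≤ C) (ht : t.card ≤ C)
    (h : code C s = code C t) : s = t := by
  have h1 : s.toList = t.toList := by
    apply List.ext_getElem?
    intro i
    by_cases hi : i < C
    · exact congrFun h ⟨i, hi⟩
    · rw [List.getElem?_eq_none (by rw [Finset.length_toList]; omega),
        List.getElem?_eq_none (by rw [Finset.length_toList]; omega)]
  ext a
  rw [← Finset.mem_toList, h1, Finset.mem_toList]

/-- Many inputs with the same crossings. -/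
theorem exists_class {Γ : Type} {M n r : ℕ} (A : Fin r → Machine Γ M) (lay : ℕ → ℕ)
    {α : Type} [Fintype α]
    (x : α → Fin n → Bool) (T R W a K : ℕ) (haW : a < W)
    (hcard : ((W - a) * (T * (2 * 2 ^ M) + 1) ^ (T / (W - a))) ^ (r * R) * K < Fintype.card α) :
    ∃ (S : Finset α) (cut : Fin r → ℕ → ℕ), K < S.card ∧
      (∀ i, ∀ q < R, q * W + a ≤ cut i q ∧ cut i q < (q + 1) * W) ∧
      ∀ i, ∀ p ∈ S, ∀ p' ∈ S, ∀ τ < T,
        (A i).cross lay (reg (cut i) R) (x p) τ = (A i).cross lay (reg (cut i) R) (x p') τ := by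
  classical
  set D := W - a with hD
  have hDpos : 0 < D := by omega
  choose e he using fun (p : α) (i : Fin r) (q : Fin R) =>
    (A i).exists_cut lay (x p) T (q.1 * W + a) D hDpos
  let f : α → Fin r × Fin R → Fin D × (Fin (T / D) → Option (Fin T × Bool × Fin (2 ^ M))) :=
    fun p iq => (e p iq.1 iq.2,
      code (T / D) ((A iq.1).data lay (x p) (iq.2.1 * W + a + e p iq.1 iq.2) T))
  have hP : Fintype.card (Fin r × Fin R → Fin D ×
      (Fin (T / D) → Option (Fin T × Bool × Fin (2 ^ M)))) =
      (D * (T * (2 * 2 ^ M) + 1) ^ (T / D)) ^ (r * R) := by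
    simp
  obtain ⟨y, hy⟩ := Fintype.exists_lt_card_fiber_of_mul_lt_card (f := f) (n := K) (by rwa [hP])
  set S := Finset.univ.filter fun p => f p = y with hS
  refine ⟨S, fun i q => if hq : q < R then q * W + a + (y (i, ⟨q, hq⟩)).1 else 0, hy, ?_, ?_⟩
  · intro i q hq
    beta_reduce
    rw [dif_pos hq]
    have h1 := (y (i, ⟨q, hq⟩)).1.2
    have h2 : (q + 1) * W = q * W + W := by ring
    constructor
    · omega
    · rw [h2]; omega
  · intro i p hp p' hp' τ hτ
    refine Machine.cross_eq ?_ τ hτ
    intro q hq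
    beta_reduce
    rw [dif_pos hq]
    have h1 : f p = y := (Finset.mem_filter.1 hp).2
    have h2 : f p' = y := (Finset.mem_filter.1 hp').2
    have h3 : f p (i, ⟨q, hq⟩) = y (i, ⟨q, hq⟩) := congrFun h1 _
    have h4 : f p' (i, ⟨q, hq⟩) = y (i, ⟨q, hq⟩) := congrFun h2 _
    have e1 : e p i ⟨q, hq⟩ = (y (i, ⟨q, hq⟩)).1 := congrArg Prod.fst h3
    have e2 : e p' i ⟨q, hq⟩ = (y (i, ⟨q, hq⟩)).1 := congrArg Prod.fst h4
    have c1 := congrArg Prod.snd h3
    have c2 := congrArg Prod.snd h4
    have b1 := he p i ⟨q, hq⟩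
    have b2 := he p' i ⟨q, hq⟩
    simp only [f] at c1 c2
    rw [e1] at c1 b1
    rw [e2] at c2 b2
    exact code_inj b1 b2 (c1.trans c2.symm)

/-- Among many tuples there are, for each coordinate, two which differ there. -/
theorem exists_differ {m : ℕ} {β : Type} [Fintype β] [DecidableEq β] (S : Finset (Fin m → β))
    (hS : Fintype.card β ^ (m - 1) < S.card) (i : Fin m) : ∃ p ∈ S, ∃ q ∈ S, p i ≠ q i := by
  classical
  by_contra hne
  push Not at hne
  have hpos : 0 < S.card := by omega
  obtain ⟨p0, hp0⟩ := Finset.card_pos.1 hpos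
  obtain ⟨m, rfl⟩ : ∃ m', m = m' + 1 := ⟨m - 1, by have := i.2; omega⟩
  have h1 : S.card ≤ Fintype.card (Fin m → β) := by
    refine Finset.card_le_card_of_injOn (s := S) (t := Finset.univ)
      (fun p => fun j => p (i.succAbove j)) (fun _ _ => Finset.mem_coe.2 (Finset.mem_univ _)) ?_
    intro p hp q hq h
    funext j
    by_cases hj : j = i
    · rw [hj]; exact hne p hp q hq
    · obtain ⟨j', rfl⟩ := Fin.exists_succAbove_eq hj
      exact congrFun h j'
  rw [Fintype.card_fun, Fintype.card_fin] at h1
  simp only [Nat.add_sub_cancel] at hS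
  omega

end Pool.Agent.W74_5f6b2a_tape
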