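import Mathlib

/-!
Choice of the groups of words and of their live positions, when the input is written on the tape
in an arbitrary order, with few copies of each bit.
-/

namespace Pool.Agent.W74_5f6b2a_tape

variable {m L B K c L₁ B' Λ : ℕ}

/-- Far apart. -/
def Far (q q' : Fin K) : Prop := q.1 + 1 < q'.1 ∨ q'.1 + 1 < q.1

theorem Far.symm {q q' : Fin K} (h : Far q q') : Far q' q := Or.symm h

/-- The positions of a given type are numerous in many words. -/
theorem select_words (F : Finset (Fin L × Fin B))
    (hF : L₁ * B + L * B' < F.card) : ∃ (U : Fin L₁ → Fin L) (P : Fin L₁ → Fin B' → Fin B),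
      Function.Injective U ∧ (∀ j, Function.Injective (P j)) ∧ ∀ j b, (U j, P j b) ∈ F := by
  classical
  let G : Finset (Fin L) := Finset.univ.filter fun u =>
    B' ≤ (Finset.univ.filter fun b => (u, b) ∈ F).card
  have hG : L₁ ≤ G.card := by
    by_contra hlt
    push Not at hlt
    have h1 : F.card = ∑ u : Fin L, (Finset.univ.filter fun b => (u, b) ∈ F).card := by
      rw [Finset.card_eq_sum_card_fiberwise (f := Prod.fst) (t := Finset.univ)
        (fun x _ => Finset.mem_coe.2 (Finset.mem_univ _))]
      refine Finset.sum_congr rfl fun u _ => ?_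
      refine Finset.card_bij (fun x _ => x.2) ?_ ?_ ?_
      · intro x hx
        have h2 := Finset.mem_filter.1 hx
        refine Finset.mem_filter.2 ⟨Finset.mem_univ _, ?_⟩
        rw [← h2.2]
        exact h2.1
      · intro x hx y hy h
        have h2 := (Finset.mem_filter.1 hx).2
        have h3 := (Finset.mem_filter.1 hy).2
        exact Prod.ext (h2.trans h3.symm) h
      · intro b hb
        exact ⟨(u, b), Finset.mem_filter.2 ⟨(Finset.mem_filter.1 hb).2, rfl⟩, rfl⟩
    have h2 : ∑ u : Fin L, (Finset.univ.filter fun b => (u, b) ∈ F).card ≤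
        ∑ u : Fin L, ((if u ∈ G then B else 0) + B') := by
      refine Finset.sum_le_sum fun u _ => ?_
      by_cases hu : u ∈ G
      · rw [if_pos hu]
        have : (Finset.univ.filter fun b => (u, b) ∈ F).card ≤ B :=
          (Finset.card_le_univ _).trans (by simp)
        omega
      · rw [if_neg hu]
        have : ¬ B' ≤ (Finset.univ.filter fun b => (u, b) ∈ F).card := fun h =>
          hu (Finset.mem_filter.2 ⟨Finset.mem_univ _, h⟩)
        omega
    rw [Finset.sum_add_distrib] at h2
    have h3 : ∑ u : Fin L, (if u ∈ G then B else 0) = G.card * B := by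
      rw [Finset.sum_ite_mem]
      simp
    have h4 : ∑ _u : Fin L, B' = L * B' := by simp
    have h5 : G.card * B ≤ L₁ * B := Nat.mul_le_mul_right _ hlt.le
    rw [← h1, h3, h4] at h2
    omega
  obtain ⟨e⟩ : Nonempty (Fin L₁ ↪ G) := Function.Embedding.nonempty_of_card_le (by simpa using hG)
  have hP : ∀ j : Fin L₁, Nonempty (Fin B' ↪ {b : Fin B // ((e j).1, b) ∈ F}) := by
    intro j
    apply Function.Embedding.nonempty_of_card_le
    rw [Fintype.card_fin, Fintype.card_subtype]
    exact (Finset.mem_filter.1 (e j).2).2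
  refine ⟨fun j => (e j).1, fun j b => ((hP j).some b).1, ?_, ?_, ?_⟩
  · intro j j' h
    exact e.injective (Subtype.ext h)
  · intro j b b' h
    exact (hP j).some.injective (Subtype.ext h)
  · intro j b
    exact ((hP j).some b).2

/-- The greedy choice. -/
theorem select (hL₁ : 0 < L₁) (hB' : 0 < B')
    (τ : Fin m → Fin L → Fin B → Fin c → Option (Fin K))
    (hΛ : ∀ q : ℕ, (Finset.univ.filter fun p : Fin m × Fin L × Fin B =>
      ∃ t q', τ p.1 p.2.1 p.2.2 t = some q' ∧ q'.1 = q).card ≤ Λ)
    (hcount : (K + 1) ^ c * (L₁ * B + L * B') + 6 * c * m * Λ + L₁ * B < L * B) :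
    ∃ (O : Fin m × Fin 2 → Fin c → Option (Fin K)) (U : Fin m × Fin 2 → Fin L₁ → Fin L)
      (P : Fin m × Fin 2 → Fin L₁ → Fin B' → Fin B),
      (∀ g, Function.Injective (U g)) ∧ (∀ g j, Function.Injective (P g j)) ∧
      (∀ i j j', U (i, 0) j ≠ U (i, 1) j') ∧ (∀ g j b, τ g.1 (U g j) (P g j b) = O g) ∧
      ∀ g g', g ≠ g' → ∀ t t' q q', O g t = some q → O g' t' = some q' → Far q q' := by
  classical
  suffices H : ∀ S : Finset (Fin m × Fin 2),
      ∃ (O : Fin m × Fin 2 → Fin c → Option (Fin K)) (U : Fin m × Fin 2 → Fin L₁ → Fin L)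
      (P : Fin m × Fin 2 → Fin L₁ → Fin B' → Fin B),
      (∀ g ∈ S, Function.Injective (U g)) ∧ (∀ g ∈ S, ∀ j, Function.Injective (P g j)) ∧
      (∀ g ∈ S, ∀ g' ∈ S, g ≠ g' → g.1 = g'.1 → ∀ j j', U g j ≠ U g' j') ∧
      (∀ g ∈ S, ∀ j b, τ g.1 (U g j) (P g j b) = O g) ∧
      ∀ g ∈ S, ∀ g' ∈ S, g ≠ g' → ∀ t t' q q', O g t = some q → O g' t' = some q' → Far q q' by
    obtain ⟨O, U, P, h1, h2, h3, h4, h5⟩ := H Finset.univ
    exact ⟨O, U, P, fun g => h1 g (Finset.mem_univ _), fun g => h2 g (Finset.mem_univ _),
      fun i => h3 (i, 0) (Finset.mem_univ _) (i, 1) (Finset.mem_univ _) (by simp) rfl,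
      fun g => h4 g (Finset.mem_univ _),
      fun g g' => h5 g (Finset.mem_univ _) g' (Finset.mem_univ _)⟩
  intro S
  induction S using Finset.induction_on with
  | empty =>
    by_cases hne : Nonempty ((Fin m × Fin 2 → Fin L₁ → Fin L) ×
      (Fin m × Fin 2 → Fin L₁ → Fin B' → Fin B))
    · obtain ⟨U, P⟩ := hne.some
      exact ⟨fun _ _ => none, U, P, by simp, by simp, by simp, by simp, by simp⟩
    · exfalso
      apply hne
      have hL : 0 < L := by
        rcases Nat.eq_zero_or_pos L with h | h
        · subst h; simp at hcount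
        · exact h
      have hB : 0 < B := by
        rcases Nat.eq_zero_or_pos B with h | h
        · subst h; simp at hcount
        · exact h
      exact ⟨fun _ _ => ⟨0, hL⟩, fun _ _ _ => ⟨0, hB⟩⟩
  | insert g S hg ih =>
    obtain ⟨O, U, P, h1, h2, h3, h4, h5⟩ := ih
    -- bad positions
    let bad1 : Finset (Fin L × Fin B) := Finset.univ.filter fun p =>
      ∃ g' ∈ S, ∃ t t' q q', τ g.1 p.1 p.2 t = some q ∧ O g' t' = some q' ∧ ¬ Far q q'
    let bad2 : Finset (Fin L × Fin B) := Finset.univ.filter fun p =>
      ∃ g' ∈ S, g' ≠ g ∧ g.1 = g'.1 ∧ ∃ j, U g' j = p.1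
    have hScard : S.card ≤ 2 * m := by
      refine (Finset.card_le_univ _).trans ?_
      simp [mul_comm]
    have hb1 : bad1.card ≤ 6 * c * m * Λ := by
      let D : (Fin m × Fin 2) × Fin c × Fin 3 → Finset (Fin m × Fin L × Fin B) := fun x =>
        Finset.univ.filter fun p => ∃ t q', τ p.1 p.2.1 p.2.2 t = some q' ∧
          q'.1 = (match O x.1 x.2.1 with | some q => q.1 | none => 0) + x.2.2.1 - 1
      have hsub : bad1.map ⟨fun p => (g.1, p.1, p.2), fun p p' h => by
          simp only [Prod.mk.injEq, true_and] at h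
          exact Prod.ext h.1 h.2⟩ ⊆
          (S ×ˢ (Finset.univ : Finset (Fin c × Fin 3))).biUnion D := by
        intro p hp
        obtain ⟨p', hp', rfl⟩ := Finset.mem_map.1 hp
        obtain ⟨-, g', hg', t, t', q, q', e1, e2, e3⟩ := Finset.mem_filter.1 hp'
        have e4 : q'.1 ≤ q.1 + 1 ∧ q.1 ≤ q'.1 + 1 := by
          unfold Far at e3
          omega
        simp only [Finset.mem_biUnion, Finset.mem_product, Finset.mem_univ, and_true]
        refine ⟨(g', t', ⟨q.1 + 1 - q'.1, by omega⟩), hg', ?_⟩
        simp only [D, Finset.mem_filter, Finset.mem_univ, true_and]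
        refine ⟨t, q, e1, ?_⟩
        rw [e2]
        simp only
        omega
      have hcard := (Finset.card_le_card hsub).trans Finset.card_biUnion_le
      rw [Finset.card_map] at hcard
      refine hcard.trans ((Finset.sum_le_sum fun x _ => hΛ _).trans ?_)
      rw [Finset.sum_const, smul_eq_mul, Finset.card_product]
      simp only [Finset.card_univ, Fintype.card_prod, Fintype.card_fin]
      calc S.card * (c * 3) * Λ ≤ 2 * m * (c * 3) * Λ :=
            Nat.mul_le_mul_right _ (Nat.mul_le_mul_right _ hScard)
        _ = 6 * c * m * Λ := by ring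
    have hb2 : bad2.card ≤ L₁ * B := by
      -- there is at most one such `g'`
      by_cases hex : ∃ g' ∈ S, g' ≠ g ∧ g.1 = g'.1
      · obtain ⟨g', hg', hne, heq⟩ := hex
        have hsub : bad2 ⊆ (Finset.univ : Finset (Fin L₁ × Fin B)).image
            fun x => (U g' x.1, x.2) := by
          intro p hp
          obtain ⟨-, g'', hg'', hne'', heq'', j, hj⟩ := Finset.mem_filter.1 hp
          have : g'' = g' := by
            have a1 : g'.2 ≠ g.2 := fun h => hne (Prod.ext heq.symm h)
            have a2 : g''.2 ≠ g.2 := fun h => hne'' (Prod.ext heq''.symm h)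
            refine Prod.ext (heq''.symm.trans heq) ?_
            omega
          subst this
          exact Finset.mem_image.2 ⟨(j, p.2), Finset.mem_univ _, Prod.ext hj rfl⟩
        refine (Finset.card_le_card hsub).trans (Finset.card_image_le.trans ?_)
        simp
      · have : bad2 = ∅ := by
          apply Finset.filter_false_of_mem
          rintro p - ⟨g', hg', hne, heq, -⟩
          exact hex ⟨g', hg', hne, heq⟩
        rw [this]
        simp
    let V : Finset (Fin L × Fin B) := Finset.univ \ (bad1 ∪ bad2)
    have hV : (K + 1) ^ c * (L₁ * B + L * B') < V.card := by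
      have a1 : (Finset.univ : Finset (Fin L × Fin B)).card = L * B := by simp
      have a2 := Finset.card_union_le bad1 bad2
      have a3 : V.card = L * B - (bad1 ∪ bad2).card := by
        simp only [V]
        rw [Finset.card_sdiff_of_subset (Finset.subset_univ _), a1]
      omega
    have hcardT : Fintype.card (Fin c → Option (Fin K)) = (K + 1) ^ c := by simp
    obtain ⟨o, -, ho⟩ := Finset.exists_lt_card_fiber_of_mul_lt_card_of_maps_to
      (s := V) (t := (Finset.univ : Finset (Fin c → Option (Fin K))))
      (f := fun p => τ g.1 p.1 p.2) (n := L₁ * B + L * B') (fun _ _ => Finset.mem_univ _)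
      (by rw [Finset.card_univ, hcardT]; exact hV)
    obtain ⟨U', P', u1, u2, u3⟩ := select_words _ ho
    have hfree : ∀ j b, (U' j, P' j b) ∉ bad1 ∧ (U' j, P' j b) ∉ bad2 ∧
        τ g.1 (U' j) (P' j b) = o := by
      intro j b
      have a1 := Finset.mem_filter.1 (u3 j b)
      have a2 := (Finset.mem_sdiff.1 a1.1).2
      rw [Finset.mem_union, not_or] at a2
      exact ⟨a2.1, a2.2, a1.2⟩
    have hne : ∀ g' ∈ S, g' ≠ g := fun g' hg' h => hg (h ▸ hg')
    have hU : ∀ g' ∈ S, g.1 = g'.1 → ∀ j j', U' j ≠ U g' j' := by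
      intro g' hg' heq j j' h
      apply (hfree j ⟨0, hB'⟩).2.1
      exact Finset.mem_filter.2 ⟨Finset.mem_univ _, g', hg', hne g' hg', heq, j', h.symm⟩
    have hO : ∀ g' ∈ S, ∀ t t' q q', o t = some q → O g' t' = some q' → Far q q' := by
      intro g' hg' t t' q q' e1 e2
      by_contra hfar
      have a1 := hfree ⟨0, hL₁⟩ ⟨0, hB'⟩
      apply a1.1
      refine Finset.mem_filter.2 ⟨Finset.mem_univ _, g', hg', t, t', q, q', ?_, e2, hfar⟩
      rw [a1.2.2]
      exact e1
    refine ⟨Function.update O g o,
      Function.update U g U', Function.update P g P', ?_, ?_, ?_, ?_, ?_⟩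
    · intro g' hg'
      rcases Finset.mem_insert.1 hg' with rfl | hg'
      · rw [Function.update_self]; exact u1
      · rw [Function.update_of_ne (hne _ hg')]; exact h1 g' hg'
    · intro g' hg' j
      rcases Finset.mem_insert.1 hg' with rfl | hg'
      · rw [Function.update_self]; exact u2 j
      · rw [Function.update_of_ne (hne _ hg')]; exact h2 g' hg' j
    · intro g' hg' g'' hg'' hgg heq j j'
      rcases Finset.mem_insert.1 hg' with e1 | k1 <;> rcases Finset.mem_insert.1 hg'' with e2 | k2
      · exact absurd (e1.trans e2.symm) hgg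
      · subst e1
        rw [Function.update_self, Function.update_of_ne (hne _ k2)]
        exact hU g'' k2 heq j j'
      · subst e2
        rw [Function.update_self, Function.update_of_ne (hne _ k1)]
        exact (hU g' k1 heq.symm j' j).symm
      · rw [Function.update_of_ne (hne _ k1), Function.update_of_ne (hne _ k2)]
        exact h3 g' k1 g'' k2 hgg heq j j'
    · intro g' hg' j b
      rcases Finset.mem_insert.1 hg' with rfl | hg'
      · rw [Function.update_self, Function.update_self, Function.update_self]
        exact (hfree j b).2.2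
      · rw [Function.update_of_ne (hne _ hg'), Function.update_of_ne (hne _ hg'),
          Function.update_of_ne (hne _ hg')]
        exact h4 g' hg' j b
    · intro g' hg' g'' hg'' hgg t t' q q' e1 e2
      rcases Finset.mem_insert.1 hg' with f1 | k1 <;> rcases Finset.mem_insert.1 hg'' with f2 | k2
      · exact absurd (f1.trans f2.symm) hgg
      · subst f1
        rw [Function.update_self] at e1
        rw [Function.update_of_ne (hne _ k2)] at e2
        exact hO g'' k2 t t' q q' e1 e2
      · subst f2
        rw [Function.update_self] at e2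
        rw [Function.update_of_ne (hne _ k1)] at e1
        exact (hO g' k1 t' t q' q e2 e1).symm
      · rw [Function.update_of_ne (hne _ k1)] at e1
        rw [Function.update_of_ne (hne _ k2)] at e2
        exact h5 g' k1 g'' k2 hgg t t' q q' e1 e2

end Pool.Agent.W74_5f6b2a_tape
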