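import Pool.Agent.W74_5f6b2a_tape.Pad
import Pool.Agent.W74_5f6b2a_tape.Hide
import Pool.Agent.W74_5f6b2a_tape.Profile
import Pool.Agent.W74_5f6b2a_tape.Select

/-!
Restriction of decision trees and machines to a suitable set of codes.
-/

namespace Pool.Agent.W74_5f6b2a_tape

open Pool.Agent.W_MP_5f6b2a_lc

variable {m L B K c L₁ B' n : ℕ}

/-! ### The places of a bit on the tape -/

/-- The cells of the tape on which the bit number `p` is written. -/
noncomputable def cells (c n : ℕ) (lay : ℕ → ℕ) (p : ℕ) : List ℕ :=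
  ((Finset.range (c * (n + 1))).filter fun h => lay h = p).toList

/-- The intervals of the cells on which the bit number `p` is written. -/
noncomputable def typ (K Λ c n : ℕ) (lay : ℕ → ℕ) (p : ℕ) (t : Fin c) : Option (Fin K) :=
  match (cells c n lay p)[t.1]? with
  | some h => if hh : h / Λ < K then some ⟨h / Λ, hh⟩ else none
  | none => none

theorem typ_eq {Λ : ℕ} {lay : ℕ → ℕ} (hlay : Layout c n lay) (hK : c * (n + 1) ≤ K * Λ)
    {p : ℕ} (hp : p < n) {h : ℕ} (hh : lay h = p) :
    ∃ (t : Fin c) (q : Fin K), typ K Λ c n lay p t = some q ∧ q.1 = h / Λ := by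
  have h1 : h < c * (n + 1) := hlay.1 h (by omega)
  have h2 : h ∈ cells c n lay p := by
    unfold cells
    rw [Finset.mem_toList, Finset.mem_filter, Finset.mem_range]
    exact ⟨h1, hh⟩
  obtain ⟨t, ht, ht'⟩ := List.getElem_of_mem h2
  have h3 : (cells c n lay p).length ≤ c := by
    unfold cells
    rw [Finset.length_toList]
    exact hlay.2 p hp
  have h4 : h / Λ < K := Nat.div_lt_of_lt_mul (by rw [mul_comm]; omega)
  refine ⟨⟨t, by omega⟩, ⟨h / Λ, h4⟩, ?_, rfl⟩
  unfold typ
  simp only
  rw [List.getElem?_eq_getElem ht, ht']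
  simp only
  rw [dif_pos h4]

theorem of_typ {Λ : ℕ} {lay : ℕ → ℕ} {p : ℕ} {t : Fin c} {q : Fin K}
    (h : typ K Λ c n lay p t = some q) : ∃ h, lay h = p ∧ h / Λ = q.1 := by
  unfold typ at h
  cases h1 : (cells c n lay p)[t.1]? with
  | none =>
    rw [h1] at h
    simp at h
  | some h' =>
    rw [h1] at h
    simp only at h
    split_ifs at h with hh
    simp only [Option.some.injEq] at h
    refine ⟨h', ?_, by rw [← h]⟩
    have h2 := List.mem_of_getElem? h1
    unfold cells at h2
    rw [Finset.mem_toList, Finset.mem_filter] at h2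
    exact h2.2

theorem typ_card {Λ : ℕ} (hΛ : 0 < Λ) {lay : ℕ → ℕ} {ι : Type} [Fintype ι] (f : ι → ℕ)
    (hf : Function.Injective f) (q : ℕ) (S : Finset ι)
    (hS : ∀ p ∈ S, ∃ (t : Fin c) (q' : Fin K), typ K Λ c n lay (f p) t = some q' ∧ q'.1 = q) :
    S.card ≤ Λ := by
  classical
  have h1 : ∀ p : S, ∃ h, lay h = f p.1 ∧ h / Λ = q := by
    rintro ⟨p, hp⟩
    obtain ⟨t, q', h1, h2⟩ := hS p hp
    obtain ⟨h, h3, h4⟩ := of_typ h1
    exact ⟨h, h3, h4.trans h2⟩
  choose g hg1 hg2 using h1
  have h2 : S.attach.card ≤ (Finset.Ico (q * Λ) (q * Λ + Λ)).card := by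
    refine Finset.card_le_card_of_injOn g ?_ ?_
    · intro p _
      rw [Finset.mem_coe, Finset.mem_Ico]
      have h3 := hg2 p
      have h4 := Nat.div_mul_le_self (g p) Λ
      have h5 := Nat.lt_div_mul_add hΛ (a := g p)
      rw [h3] at h4 h5
      exact ⟨h4, h5⟩
    · intro p _ p' _ h
      apply Subtype.ext
      apply hf
      rw [← hg1 p, ← hg1 p', h]
  rw [Finset.card_attach, Nat.card_Ico] at h2
  omega

/-! ### Regions -/

theorem reg_near {cut : ℕ → ℕ} {R W h : ℕ} (hcut : ∀ q < R, q * W ≤ cut q ∧ cut q < (q + 1) * W)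
    (hh : h / W < R) (hW : 0 < W) : reg cut R h = h / W ∨ reg cut R h = h / W + 1 := by
  have h1 := Nat.div_mul_le_self h W
  have h2 := Nat.lt_div_mul_add hW (a := h)
  set r := h / W with hr
  have h3 : Finset.range r ⊆ (Finset.range R).filter fun q => cut q ≤ h := by
    intro q hq
    rw [Finset.mem_range] at hq
    rw [Finset.mem_filter, Finset.mem_range]
    refine ⟨by omega, ?_⟩
    have h4 := (hcut q (by omega)).2
    have h5 : (q + 1) * W ≤ r * W := Nat.mul_le_mul_right _ (by omega)
    omega
  have h4 : ((Finset.range R).filter fun q => cut q ≤ h) ⊆ Finset.range (r + 1) := by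
    intro q hq
    rw [Finset.mem_filter, Finset.mem_range] at hq
    rw [Finset.mem_range]
    by_contra hlt
    have h5 := (hcut q hq.1).1
    have h6 : (r + 1) * W ≤ q * W := Nat.mul_le_mul_right _ (by omega)
    rw [Nat.add_mul, one_mul] at h6
    omega
  have h5 := Finset.card_le_card h3
  have h6 := Finset.card_le_card h4
  rw [Finset.card_range] at h5 h6
  unfold reg
  omega

open Classical in
/-- The owner of a region. -/
noncomputable def own (O : Fin m × Fin 2 → Fin c → Option (Fin K)) (ρ : ℕ) :
    Option (Fin m × Fin 2) :=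
  if h : ∃ g, ∃ t q, O g t = some q ∧ (ρ = q.1 ∨ ρ = q.1 + 1) then some h.choose else none

theorem own_eq {O : Fin m × Fin 2 → Fin c → Option (Fin K)}
    (hO : ∀ g g', g ≠ g' → ∀ t t' q q', O g t = some q → O g' t' = some q' → Far q q')
    {g : Fin m × Fin 2} {t : Fin c} {q : Fin K} {ρ : ℕ} (h : O g t = some q)
    (hρ : ρ = q.1 ∨ ρ = q.1 + 1) : own O ρ = some g := by
  have hex : ∃ g, ∃ t q, O g t = some q ∧ (ρ = q.1 ∨ ρ = q.1 + 1) := ⟨g, t, q, h, hρ⟩
  unfold own
  rw [dif_pos hex]
  congr 1
  by_contra hne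
  obtain ⟨t', q', h1, h2⟩ := hex.choose_spec
  have h3 := hO _ _ hne t' t q' q h1 h
  unfold Far at h3
  omega

/-! ### The codes -/

/-- Cells. -/
abbrev Cell (m L₁ : ℕ) : Type := (Fin m × Fin 2) × Fin L₁

/-- The number of a position. -/
def posEquiv (m L N : ℕ) : Fin m × Fin L × Fin N ≃ Fin (m * (L * N)) where
  toFun x := pos x.1 x.2.1 x.2.2
  invFun h :=
    let p := finProdFinEquiv.symm h
    let q := finProdFinEquiv.symm p.2
    (p.1, q.1, q.2)
  left_inv x := by
    simp only [pos, Equiv.symm_apply_apply]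
  right_inv h := by
    simp only [pos, Prod.mk.eta, Equiv.apply_symm_apply]

theorem posEquiv_symm {N : ℕ} (i : Fin m) (u : Fin L) (b : Fin N) :
    (posEquiv m L N).symm (pos i u b) = (i, u, b) :=
  (Equiv.symm_apply_eq _).2 rfl

open Classical in
/-- The group and the number in the group of a word. -/
noncomputable def who (U : Fin m × Fin 2 → Fin L₁ → Fin L) (i : Fin m) (u : Fin L) :
    Option (Fin 2 × Fin L₁) :=
  if h : ∃ sj : Fin 2 × Fin L₁, U (i, sj.1) sj.2 = u then some h.choose else none

theorem who_eq {U : Fin m × Fin 2 → Fin L₁ → Fin L} (hU : ∀ g, Function.Injective (U g))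
    (hU' : ∀ i j j', U (i, 0) j ≠ U (i, 1) j') (i : Fin m) (s : Fin 2) (j : Fin L₁) :
    who U i (U (i, s) j) = some (s, j) := by
  have hex : ∃ sj : Fin 2 × Fin L₁, U (i, sj.1) sj.2 = U (i, s) j := ⟨(s, j), rfl⟩
  unfold who
  rw [dif_pos hex]
  congr 1
  have h1 := hex.choose_spec
  set x := hex.choose with hx
  have h2 : x.1 = s := by
    have h3 : x.1 = 0 ∨ x.1 = 1 := by omega
    have h4 : s = 0 ∨ s = 1 := by omega
    rcases h3 with h3 | h3 <;> rcases h4 with h4 | h4
    · rw [h3, h4]
    · rw [h3, h4] at h1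
      exact absurd h1 (hU' _ _ _)
    · rw [h3, h4] at h1
      exact absurd h1.symm (hU' _ _ _)
    · rw [h3, h4]
  rw [h2] at h1
  exact Prod.ext h2 (hU _ h1)

open Classical in
/-- The input with the values `w` at the possible live positions. -/
noncomputable def input (U : Fin m × Fin 2 → Fin L₁ → Fin L)
    (P : Fin m × Fin 2 → Fin L₁ → Fin B' → Fin B) (w : Cell m L₁ × Fin B' → Bool)
    (p : Fin (m * (L * (m + B)))) : Bool :=
  let x := (posEquiv m L (m + B)).symm p
  match who U x.1 x.2.1 with
  | none => false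
  | some sj => Fin.addCases (motive := fun _ => Bool) (fun b => Nat.testBit sj.2.1 b.1)
      (fun b => if h : ∃ b', P (x.1, sj.1) sj.2 b' = b then w (((x.1, sj.1), sj.2), h.choose)
        else false) x.2.2

section Input

variable {U : Fin m × Fin 2 → Fin L₁ → Fin L} {P : Fin m × Fin 2 → Fin L₁ → Fin B' → Fin B}
  (hU : ∀ g, Function.Injective (U g)) (hU' : ∀ i j j', U (i, 0) j ≠ U (i, 1) j')
  (hP : ∀ g j, Function.Injective (P g j))

include hU hU' in
theorem input_label (w : Cell m L₁ × Fin B' → Bool) (i : Fin m) (s : Fin 2) (j : Fin L₁)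
    (b : Fin m) : input U P w (pos i (U (i, s) j) (Fin.castAdd B b)) = Nat.testBit j.1 b.1 := by
  unfold input
  simp only [posEquiv_symm, who_eq hU hU', Fin.addCases_left]

include hU hU' hP in
theorem input_field (w : Cell m L₁ × Fin B' → Bool) (i : Fin m) (s : Fin 2) (j : Fin L₁)
    (b : Fin B') : input U P w (pos i (U (i, s) j) (Fin.natAdd m (P (i, s) j b))) =
      w (((i, s), j), b) := by
  have hex : ∃ b', P (i, s) j b' = P (i, s) j b := ⟨b, rfl⟩
  unfold input
  simp only [posEquiv_symm, who_eq hU hU', Fin.addCases_right]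
  rw [dif_pos hex, hP _ _ hex.choose_spec]

/-- Each bit is a constant, or the value at a possible live position. -/
theorem input_cases (p : Fin (m * (L * (m + B)))) :
    (∃ b, ∀ w, input U P w p = b) ∨ ∃ (i : Fin m) (s : Fin 2) (j : Fin L₁) (b : Fin B'),
      p = pos i (U (i, s) j) (Fin.natAdd m (P (i, s) j b)) ∧
      ∀ w, input U P w p = w (((i, s), j), b) := by
  classical
  obtain ⟨⟨i, u, b⟩, hx⟩ := (posEquiv m L (m + B)).surjective p
  have hx' : pos i u b = p := hx
  subst hx'
  unfold input
  simp only [posEquiv_symm]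
  unfold who
  by_cases hex : ∃ sj : Fin 2 × Fin L₁, U (i, sj.1) sj.2 = u
  · rw [dif_pos hex]
    simp only
    refine Fin.addCases (fun b => ?_) (fun b => ?_) b
    · left
      exact ⟨_, fun w => by rw [Fin.addCases_left]⟩
    · by_cases hb : ∃ b', P (i, hex.choose.1) hex.choose.2 b' = b
      · right
        refine ⟨i, hex.choose.1, hex.choose.2, hb.choose, ?_, fun w => ?_⟩
        · rw [hb.choose_spec, hex.choose_spec]
        · rw [Fin.addCases_right, dif_pos hb]
      · left
        exact ⟨false, fun w => by rw [Fin.addCases_right, dif_neg hb]⟩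
  · left
    rw [dif_neg hex]
    exact ⟨false, fun w => rfl⟩

/-- The values at the possible live positions, given the live positions. -/
def live (l : Cell m L₁ → Fin B') (z : Cell m L₁ → Bool) (x : Cell m L₁ × Fin B') : Bool :=
  decide (l x.1 = x.2) && z x.1

include hU hU' hP in
theorem unpad_input (hL₁ : L₁ ≤ 2 ^ m) (l : Cell m L₁ → Fin B') (z : Cell m L₁ → Bool)
    (i : Fin m) : unpad (input U P (live l z)) i = true ↔
      ∃ j, z ((i, 0), j) = true ∧ z ((i, 1), j) = true := by
  unfold unpad
  rw [decide_eq_true_iff]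
  have field : ∀ (u : Fin L) (b : Fin B),
      input U P (live l z) (pos i u (Fin.natAdd m b)) = true →
      ∃ s j, u = U (i, s) j ∧ z ((i, s), j) = true := by
    intro u b h
    rcases input_cases (U := U) (P := P) (pos i u (Fin.natAdd m b)) with
      ⟨b0, hb0⟩ | ⟨i', s, j, b', h1, h2⟩
    · -- a constant field bit is false
      exfalso
      have h4 : input U P (fun _ => false) (pos i u (Fin.natAdd m b)) = true := by
        rw [hb0] at h ⊢
        exact h
      unfold input at h4
      simp only [posEquiv_symm] at h4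
      cases hw : who U i u with
      | none => rw [hw] at h4; exact absurd h4 (by simp)
      | some sj =>
        rw [hw] at h4
        simp only [Fin.addCases_right] at h4
        split_ifs at h4
    · have h3 := congrArg (posEquiv m L (m + B)).symm h1
      rw [posEquiv_symm, posEquiv_symm] at h3
      simp only [Prod.mk.injEq] at h3
      obtain ⟨rfl, h4, -⟩ := h3
      rw [h2] at h
      unfold live at h
      rw [Bool.and_eq_true] at h
      exact ⟨s, j, h4, h.2⟩
  constructor
  · rintro ⟨u, v, huv, hlab, ⟨b, hb⟩, ⟨b', hb'⟩⟩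
    obtain ⟨s, j, rfl, hz⟩ := field u b hb
    obtain ⟨s', j', rfl, hz'⟩ := field v b' hb'
    have hj : j = j' := by
      apply Fin.ext
      apply Nat.eq_of_testBit_eq
      intro a
      by_cases ha : a < m
      · have := hlab ⟨a, ha⟩
        rw [input_label hU hU', input_label hU hU'] at this
        exact this
      · have h1 : 2 ^ m ≤ 2 ^ a := Nat.pow_le_pow_right (by norm_num) (by omega)
        rw [Nat.testBit_eq_false_of_lt (by have := j.2; omega),
          Nat.testBit_eq_false_of_lt (by have := j'.2; omega)]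
    subst hj
    have h3 : s = 0 ∨ s = 1 := by omega
    have h4 : s' = 0 ∨ s' = 1 := by omega
    rcases h3 with rfl | rfl <;> rcases h4 with rfl | rfl
    · exact absurd rfl huv
    · exact ⟨j, hz, hz'⟩
    · exact ⟨j, hz', hz⟩
    · exact absurd rfl huv
  · rintro ⟨j, h0, h1⟩
    refine ⟨U (i, 0) j, U (i, 1) j, hU' _ _ _, fun b => ?_, ⟨P (i, 0) j (l ((i, 0), j)), ?_⟩,
      ⟨P (i, 1) j (l ((i, 1), j)), ?_⟩⟩
    · rw [input_label hU hU', input_label hU hU']
    · rw [input_field hU hU' hP]
      unfold live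
      simp [h0]
    · rw [input_field hU hU' hP]
      unfold live
      simp [h1]

end Input

/-! ### Mixtures -/

/-- The values for a tuple of sets: the set in the first part, its complement in the second. -/
def val (p : Fin m → Fin L₁ → Bool) (c : Cell m L₁) : Bool :=
  if c.1.2 = 0 then p c.1.1 c.2 else !p c.1.1 c.2

/-- The values for the mixture with the bits `y`. -/
def mix (pa pb : Fin m → Fin m → Fin L₁ → Bool) (y : Fin m → Bool) (c : Cell m L₁) : Bool :=
  if c.1.2 = 0 then pa c.1.1 c.1.1 c.2
  else !(if y c.1.1 = true then pb c.1.1 c.1.1 c.2 else pa c.1.1 c.1.1 c.2)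

/-- The component of the mixture in a region with the owner `g`. -/
def comp (hm : 0 < m) (pa pb : Fin m → Fin m → Fin L₁ → Bool) (y : Fin m → Bool)
    (g : Option (Fin m × Fin 2)) : Fin m → Fin L₁ → Bool :=
  match g with
  | none => pa ⟨0, hm⟩
  | some g => if g.2 = 0 then pa g.1 else if y g.1 = true then pb g.1 else pa g.1

theorem val_comp (hm : 0 < m) (pa pb : Fin m → Fin m → Fin L₁ → Bool) (y : Fin m → Bool)
    (g : Fin m × Fin 2) (j : Fin L₁) : val (comp hm pa pb y (some g)) (g, j) =
      mix pa pb y (g, j) := by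
  unfold val mix comp
  simp only
  by_cases h : g.2 = 0
  · rw [if_pos h, if_pos h, if_pos h]
  · rw [if_neg h, if_neg h, if_neg h]
    by_cases hy : y g.1 = true
    · rw [if_pos hy, if_pos hy]
    · rw [if_neg hy, if_neg hy]

/-- The restriction. -/
theorem restrict {Γ : Type} {M r : ℕ} (A : Fin r → Machine Γ M) {lay : ℕ → ℕ} {T ℓ b q Λ : ℕ}
    (hlay : Layout c (m * (L * (m + B))) lay) (hK : c * (m * (L * (m + B)) + 1) ≤ K * Λ)
    (hm : 0 < m) (hΛ : 0 < Λ) (hL₁ : 0 < L₁) (hB' : 0 < B') (hL₁m : L₁ ≤ 2 ^ m)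
    (hcount : (K + 1) ^ c * (L₁ * B + L * B') + 6 * c * m * Λ + L₁ * B < L * B)
    (F : Fin q → (Fin (m * (L * (m + B))) → Bool) → Prop) (hF : ∀ i, DTle ℓ (F i))
    (hq : q * (2 * ℓ) ^ b < B' ^ b)
    (hprof : (Λ * (T * (2 * 2 ^ M) + 1) ^ (T / Λ)) ^ (r * K) < 2 ^ L₁) :
    ∃ σ : (Fin m → Bool) → Fin (m * (L * (m + B))) → Bool,
      (∀ y, unpad (σ y) = y) ∧ (∀ i, DTle b fun y => F i (σ y)) ∧
      ∀ (i : Fin r) (τ : ℕ) (φ : Fin (2 ^ M) → ℕ → Γ → Prop), τ ≤ T → DTle 1 fun y =>
        φ ((A i).run lay (σ y) τ).state ((A i).run lay (σ y) τ).head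
          (((A i).run lay (σ y) τ).tape ((A i).run lay (σ y) τ).head) := by
  classical
  -- the groups of words
  obtain ⟨O, U, P, hU, hP, hU', hO, hfar⟩ := select (K := K) (c := c) (Λ := Λ) hL₁ hB'
    (fun (i : Fin m) (u : Fin L) (b : Fin B) =>
      typ K Λ c (m * (L * (m + B))) lay (pos i u (Fin.natAdd m b)).1)
    (fun q => typ_card hΛ (fun p : Fin m × Fin L × Fin B => (pos p.1 p.2.1 (Fin.natAdd m p.2.2)).1)
      (by
        rintro ⟨i, u, b⟩ ⟨i', u', b'⟩ h
        have h1 := congrArg (posEquiv m L (m + B)).symm (Fin.ext h)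
        rw [posEquiv_symm, posEquiv_symm] at h1
        simp only [Prod.mk.injEq] at h1
        obtain ⟨h1, h2, h3⟩ := h1
        have h4 : b = b' := by
          have h5 := congrArg Fin.val h3
          simp only [Fin.natAdd] at h5
          exact Fin.ext (by omega)
        rw [h1, h2, h4]) q _ (fun p hp => (Finset.mem_filter.1 hp).2)) hcount
  -- live positions
  obtain ⟨l, hl⟩ := exists_hide (C := Cell m L₁) (B := B') hB'
    (fun i w => F i (input U P w))
    (fun i => (hF i).subst fun p => by
      rcases input_cases (U := U) (P := P) p with ⟨b0, hb0⟩ | ⟨i', s, j, b', -, h2⟩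
      · exact Or.inl ⟨b0, hb0⟩
      · exact Or.inr ⟨_, true, fun z => by rw [h2]⟩) hq
  -- many inputs with the same crossings
  have hcard : ((Λ - 0) * (T * (2 * 2 ^ M) + 1) ^ (T / (Λ - 0))) ^ (r * K) *
      (2 ^ L₁) ^ (m - 1) < Fintype.card (Fin m → Fin L₁ → Bool) := by
    have h1 : Fintype.card (Fin m → Fin L₁ → Bool) = 2 ^ L₁ * (2 ^ L₁) ^ (m - 1) := by
      rw [← pow_succ', Nat.sub_add_cancel hm]
      simp
    rw [h1, Nat.sub_zero]
    exact Nat.mul_lt_mul_of_pos_right hprof (by positivity)
  obtain ⟨S, cut, hSK, hcut, hS⟩ := exists_class A lay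
    (fun p : Fin m → Fin L₁ → Bool => input U P (live l (val p))) T K Λ 0
    ((2 ^ L₁) ^ (m - 1)) hΛ hcard
  have hex : ∀ i : Fin m, ∃ pa ∈ S, ∃ pb ∈ S, ∃ l : Fin L₁, pa i l = true ∧ pb i l = false := by
    intro i
    obtain ⟨p, hp, p', hp', hne⟩ := exists_differ S (by simpa using hSK) i
    obtain ⟨l, hl⟩ := Function.ne_iff.1 hne
    cases h1 : p i l
    · rw [h1] at hl
      exact ⟨p', hp', p, hp, l, by simpa using hl.symm, h1⟩
    · rw [h1] at hl
      exact ⟨p, hp, p', hp', l, h1, by simpa using hl.symm⟩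
  choose pa hpa pb hpb a haa hab using hex
  refine ⟨fun y => input U P (live l (mix pa pb y)), ?_, ?_, ?_⟩
  · intro y
    funext i
    rw [Bool.eq_iff_iff, unpad_input hU hU' hP hL₁m]
    unfold mix
    simp only [if_true]
    constructor
    · rintro ⟨j, h0, h1⟩
      by_contra hy
      rw [if_neg (by simp), if_neg hy, h0] at h1
      simp at h1
    · intro hy
      refine ⟨a i, haa i, ?_⟩
      rw [if_neg (by simp), if_pos hy, hab i]
      rfl
  · intro i
    have h1 : DTle b fun y : Fin m → Bool => F i (input U P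
        (live l (mix pa pb y))) := by
      refine (hl i).subst (φ := mix pa pb) ?_
      rintro ⟨⟨i', s⟩, j⟩
      unfold mix
      simp only
      by_cases hs : s = 0
      · left
        exact ⟨pa i' i' j, fun z => by rw [if_pos hs]⟩
      · cases h2 : pa i' i' j <;> cases h3 : pb i' i' j
        · left
          exact ⟨true, fun z => by rw [if_neg hs]; simp⟩
        · right
          refine ⟨i', false, fun z => ?_⟩
          rw [if_neg hs]
          cases z i' <;> simp
        · right
          refine ⟨i', true, fun z => ?_⟩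
          rw [if_neg hs]
          cases z i' <;> simp
        · left
          exact ⟨false, fun z => by rw [if_neg hs]; simp⟩
    exact h1
  · intro i τ φ hτ
    set w := input U P (live l (val (pa ⟨0, hm⟩))) with hw
    have hcomp : ∀ y g, comp hm pa pb y g ∈ S := by
      intro y g
      unfold comp
      cases g with
      | none => exact hpa _
      | some g =>
        simp only
        split_ifs
        · exact hpa _
        · exact hpb _
        · exact hpa _
    have hbit : ∀ (y : Fin m → Bool) (h : ℕ),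
        bit (input U P (live l (mix pa pb y))) (lay h) =
        bit (input U P (live l (val (comp hm pa pb y (own O (reg (cut i) K h)))))) (lay h) := by
      intro y h
      unfold bit
      split_ifs with hh
      · rcases input_cases (U := U) (P := P) ⟨lay h, hh⟩ with
          ⟨b0, hb0⟩ | ⟨i', s, j, b', h1, h2⟩
        · rw [hb0, hb0]
        · rw [h2, h2]
          unfold live
          simp only
          congr 1
          obtain ⟨t, q', h3, h4⟩ := typ_eq hlay hK hh (h := h) rfl
          have h5 : lay h = (pos i' (U (i', s) j) (Fin.natAdd m (P (i', s) j b'))).1 :=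
            congrArg Fin.val h1
          have h6 : O (i', s) t = some q' := by
            rw [← hO (i', s) j b', ← h3, ← h5]
          have hcut' : ∀ q < K, q * Λ ≤ cut i q ∧ cut i q < (q + 1) * Λ := by
            intro q hq
            have := hcut i q hq
            simpa using this
          have h7 := reg_near hcut' (h := h) (by rw [← h4]; exact q'.2) hΛ
          rw [← h4] at h7
          rw [own_eq hfar h6 h7, val_comp]
      · rfl
    have hlook : ∀ y, _ := fun y => Machine.look_mix (A := A i) (lay := lay)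
      (ρ := reg (cut i) K) (T := T)
      (u := fun q => input U P (live l (val (comp hm pa pb y (own O q)))))
      (x := input U P (live l (mix pa pb y)))
      (w := w) (fun q τ hτ => hS i _ (hcomp y _) _ (hpa _) τ hτ)
      (hbit y) φ hτ
    set g0 := own O (reg (cut i) K ((A i).run lay w τ).head) with hg0
    cases hg : g0 with
    | none =>
      refine (DTle.of_depends (∅ : Finset (Fin m)) _ ?_).mono (by simp)
      intro y y' _
      have e1 := hlook y
      have e2 := hlook y'
      rw [hg] at e1 e2
      exact e1.trans e2.symm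
    | some g =>
      refine DTle.mono (D := ({g.1} : Finset (Fin m)).card) (by simp) (DTle.of_depends _ _ ?_)
      intro y y' hyy
      have hy := hyy _ (Finset.mem_singleton_self _)
      have hc : comp hm pa pb y (some g) = comp hm pa pb y' (some g) := by
        unfold comp
        simp only [hy]
      have e1 := hlook y
      have e2 := hlook y'
      rw [hg] at e1 e2
      rw [hc] at e1
      exact e1.trans e2.symm

end Pool.Agent.W74_5f6b2a_tape
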