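import Pool.Agent.W74_5f6b2a_tape.Mono

/-!
With exponent one, for the decision trees or for the machines, every problem is reducible.
-/

namespace Pool.Agent.W74_5f6b2a_tape

open Pool.Agent.W_MP_5f6b2a_lc ValidAux

/-- The circuit which consists of an input node. -/
def yes : Fin ((0 + 1) * (0 + 3)) → Bool := fun i => decide (i.1 < 2)

theorem yes_mem (t : ℕ) : pWSAT t 1 ((0 + 1) * (0 + 3)) yes 1 := by
  classical
  have hk : ∀ g, (decode 0 yes).kind g = Kind.input := by decide
  have hw : ∀ h g, (decode 0 yes).wire h g = false := by decide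
  rw [pWSAT_iff]
  refine ⟨⟨⟨?_, ?_, ?_, ?_⟩, ?_⟩, fun _ => true, ?_, rfl, ?_⟩
  · intro h g hh
    rw [hw] at hh
    exact absurd hh (by simp)
  · intro g _
    unfold Circuit.fanIn
    rw [Finset.filter_false_of_mem (fun h _ => by rw [hw]; simp)]
    rfl
  · intro g hg
    rw [hk] at hg
    exact absurd hg (by simp)
  · intro g hg
    rw [hk] at hg
    exact absurd hg (by simp)
  · intro p hp
    have hlen : p.length ≤ 1 := by
      by_contra hlt
      push Not at hlt
      obtain ⟨hc, -, -⟩ := hp
      match p, hlt, hc with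
      | a :: b :: l, _, hc =>
        have := (List.isChain_cons_cons.1 hc).1
        rw [hw] at this
        exact absurd this (by simp)
    refine ⟨by omega, ?_⟩
    have h1 : (p.filter fun g => decide ((decode 0 yes).Large g)) = [] := by
      rw [List.filter_eq_nil_iff]
      intro g _
      rw [decide_eq_true_iff]
      rintro ⟨h, -⟩
      rw [hk] at h
      simp at h
    rw [h1]
    exact Nat.zero_le _
  · intro g
    rw [hk]
    trivial
  · unfold Circuit.weight
    rw [Finset.filter_true_of_mem (fun g _ => ⟨hk g, rfl⟩)]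
    rfl

theorem no_mem (t k : ℕ) : ¬ pWSAT t 1 ((0 + 1) * (0 + 3)) (fun _ => false) k := by
  rw [pWSAT_iff]
  rintro ⟨h, -⟩
  exact not_correct_false 0 h.1

/-- If all predicates can be leaves, then all problems are reducible. -/
theorem all_of_leaves {α β : ℝ} (hβ : 0 ≤ β) (t : ℕ)
    (H : ∀ n : ℕ, ∃ (Γ : Type) (r M T ℓ : ℕ) (lay : ℕ → ℕ) (A : Fin r → Machine Γ M),
      Layout 1 n lay ∧ n ≤ T ∧ (r * T * (M + 1) : ℝ) ≤ (n + 1 : ℝ) ^ (1 + α) ∧
      (ℓ : ℝ) ≤ (n + 1 : ℝ) ^ β ∧ ∀ f : (Fin n → Bool) → Prop, Leaf ℓ T lay A f) :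
    WT α β t = Set.univ := by
  classical
  refine Set.eq_univ_of_forall fun Q => ⟨1, le_rfl, 1, fun _ => 3, fun _ => 1, fun k n => ?_⟩
  obtain ⟨Γ, r, M, T, ℓ, lay, A, h1, h2, h3, h4, h5⟩ := H n
  have hpos : (0 : ℝ) ≤ (n + 1 : ℝ) ^ (1 + α) := by positivity
  have hpos' : (0 : ℝ) ≤ (n + 1 : ℝ) ^ β := by positivity
  have hform : ∀ f : (Fin n → Bool) → Prop, Form (Leaf ℓ T lay A) (3 * (n + 1) ^ 1) 1 f :=
    fun f => Form.succ (by
      have : 0 < 3 * (n + 1) ^ 1 := by positivity
      omega) (Form.leaf f (h5 f))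
  refine ⟨Γ, r, M, T, ℓ, lay, A, (0 + 1) * (0 + 3), fun x => if Q n x k then yes else
    fun _ => false, fun _ => 1, h1, h2, ?_, ?_, ?_, fun _ => le_rfl, fun i => hform _,
    fun j => hform _, fun x => ?_⟩
  · push_cast
    linarith
  · push_cast
    linarith
  · beta_reduce
    rw [pow_one]
    omega
  · by_cases hx : Q n x k
    · simp only [hx, if_true, true_iff]
      exact yes_mem t
    · simp only [hx, if_false, false_iff]
      exact no_mem t 1

theorem layout_id (n : ℕ) : Layout 1 n id := by
  refine ⟨fun h hh => ?_, fun p hp => ?_⟩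
  · simp only [id] at hh
    omega
  · refine (Finset.card_le_card (t := {p}) ?_).trans (by simp)
    intro h hh
    rw [Finset.mem_filter] at hh
    exact Finset.mem_singleton.2 hh.2

theorem sharp_tree {α β : ℝ} (hβ : 1 ≤ β) (t : ℕ) : WT α β t = Set.univ := by
  refine all_of_leaves (by linarith) t fun n => ⟨Unit, 0, 0, n, n, id, fun i => i.elim0,
    layout_id n, le_rfl, ?_, ?_, fun f => Or.inl ?_⟩
  · simp only [Nat.cast_zero, zero_mul]
    positivity
  · have h1 : (n : ℝ) + 1 ≤ (n + 1 : ℝ) ^ β := by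
      calc (n : ℝ) + 1 = (n + 1 : ℝ) ^ (1 : ℝ) := (Real.rpow_one _).symm
        _ ≤ _ := Real.rpow_le_rpow_of_exponent_le (by linarith [(Nat.cast_nonneg n : (0:ℝ) ≤ n)]) hβ
    linarith
  · refine (DTle.of_depends Finset.univ f ?_).mono (by simp)
    intro z z' h
    have : z = z' := funext fun x => h x (Finset.mem_univ _)
    rw [this]

/-- The machine which reads the input and remembers it. -/
noncomputable def reader (n : ℕ) (e : (Fin n → Bool) ≃ Fin (2 ^ n)) : Machine Bool n where
  start := e fun _ => false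
  origin := 0
  init _ b := b
  next _ s h a := e fun i => if i.1 = h then a else e.symm s i
  write _ _ _ a := a
  move _ _ h _ := h + 1
  near _ _ h _ := ⟨le_rfl, by omega⟩

theorem reader_run (n : ℕ) (e : (Fin n → Bool) ≃ Fin (2 ^ n)) (x : Fin n → Bool) : ∀ τ,
    ((reader n e).run id x τ).head = τ ∧ (∀ h, ((reader n e).run id x τ).tape h = bit x h) ∧
      ((reader n e).run id x τ).state = e fun i => if i.1 < τ then x i else false := by
  intro τ
  induction τ with
  | zero =>
    refine ⟨rfl, fun h => rfl, ?_⟩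
    show e (fun _ => false) = _
    simp
  | succ τ ih =>
    obtain ⟨h1, h2, h3⟩ := ih
    refine ⟨?_, ?_, ?_⟩
    · show ((reader n e).run id x τ).head + 1 = τ + 1
      rw [h1]
    · intro h
      show Function.update ((reader n e).run id x τ).tape ((reader n e).run id x τ).head
        (((reader n e).run id x τ).tape ((reader n e).run id x τ).head) h = bit x h
      rw [Function.update_eq_self]
      exact h2 h
    · show e (fun i => if i.1 = ((reader n e).run id x τ).head then
        ((reader n e).run id x τ).tape ((reader n e).run id x τ).head else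
          e.symm ((reader n e).run id x τ).state i) = _
      rw [h1, h2, h3, Equiv.symm_apply_apply]
      congr 1
      funext i
      by_cases hi : i.1 = τ
      · rw [if_pos hi, if_pos (by omega), ← hi]
        unfold bit
        rw [dif_pos i.2]
      · rw [if_neg hi]
        by_cases hi' : i.1 < τ
        · rw [if_pos hi', if_pos (by omega)]
        · rw [if_neg hi', if_neg (by omega)]

theorem sharp_machine {α β : ℝ} (hα : 1 ≤ α) (hβ : 0 ≤ β) (t : ℕ) : WT α β t = Set.univ := by
  refine all_of_leaves hβ t fun n => ?_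
  have hcard : Fintype.card (Fin n → Bool) = Fintype.card (Fin (2 ^ n)) := by simp
  let e := Fintype.equivOfCardEq hcard
  have hn : (0 : ℝ) ≤ n := Nat.cast_nonneg n
  refine ⟨Bool, 1, n, n, 1, id, fun _ => reader n e, layout_id n, le_rfl, ?_, ?_,
    fun f => Or.inr ⟨0, n, fun s _ _ => f (e.symm s), le_rfl, fun x => ?_⟩⟩
  · have h1 : (n + 1 : ℝ) ^ (2 : ℝ) ≤ (n + 1 : ℝ) ^ (1 + α) :=
      Real.rpow_le_rpow_of_exponent_le (by linarith) (by linarith)
    have h2 : (n + 1 : ℝ) ^ (2 : ℝ) = (n + 1 : ℝ) ^ 2 := by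
      rw [← Real.rpow_natCast]; norm_num
    rw [h2] at h1
    push_cast
    nlinarith
  · rw [Nat.cast_one]
    exact Real.one_le_rpow (by linarith) hβ
  · rw [(reader_run n e x n).2.2]
    beta_reduce
    rw [Equiv.symm_apply_apply]
    have : (fun i : Fin n => if i.1 < n then x i else false) = x := by
      funext i
      rw [if_pos i.2]
    rw [this]

end Pool.Agent.W74_5f6b2a_tape
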